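import Pool.Agent.TH342.CV.Levels
import Pool.Agent.H370R2.Expl1

/-!
# k-level correlations of simple critical zeros in long boxes

No hypothesis is assumed.  Let `p = 2 - c_MT⁻¹ = 0.6725…` be the Montgomery-Taylor proportion.

For every `k ≥ 2` the number of `k`-tuples of distinct ordinates of simple zeros of zeta on the
critical line, with all differences from the last one in a box whose sides are long intervals, is at
least a positive proportion of the number expected from the sine kernel (the volume of the box times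
the number of zeros), uniformly in the box, provided the sides take at most two different
positions.  The positions may be as large as the height of the zeros, and each position may be
taken with respect to another primitive Dirichlet L-function.  So for `k = 3` all boxes with long
sides are covered.

Idea of the proof.  Cut the line into cells of `g` mean spacings.  By the trace inequality and
Bessel's inequality for sampled exponentials the counts of simple critical zeros in the cells,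
truncated at `(1 + o(1)) g`, have average at least `(p - o(1)) g`, at every shift.  In a cell the
number of tuples of distinct zeros is at least a product of powers of the counts in `r + 1` places
(diminished by `k`), and for numbers in `[0, 1]` the product of the `m`-th powers is at least the
`m`-th power of `x + y_1 + … + y_r - r`, to which Jensen's inequality is applied.
-/

open Filter Topology Complex

namespace Pool.Agent.Results.MP_67227b_nt.KLevelLongBoxes

open Pool.Agent.TH342.CV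

/-- the Montgomery-Taylor proportion `2 - c_MT⁻¹ = 3/2 - cot(1/√2)/√2 = 0.6725…` -/
noncomputable def p : ℝ := 3 / 2 - Real.cot (1 / Real.sqrt 2) / Real.sqrt 2

/-- `1/2 + i x` is a simple zero of `F` -/
def Simple (F : ℂ → ℂ) (x : ℝ) : Prop :=
  F (1 / 2 + x * I) = 0 ∧ analyticOrderNatAt F (1 / 2 + x * I) = 1

/-- the tuples `(x, y)`, `y = (y_i)`: `x ∈ (T, T + H]` is the ordinate of a simple zero of `F₀` on the
critical line, the `y_i` are distinct, `y_i` is the ordinate of a simple zero of `F_i` on the critical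
line and `(y_i - x) log T / 2π` is in the open interval `(α_i, β_i)` -/
def tuples {n : ℕ} (F₀ : ℂ → ℂ) (F : Fin n → ℂ → ℂ) (T H : ℝ) (α β : Fin n → ℝ) :
    Set (ℝ × (Fin n → ℝ)) :=
  {z | T < z.1 ∧ z.1 ≤ T + H ∧ Simple F₀ z.1 ∧ Function.Injective z.2 ∧
    ∀ i, Simple (F i) (z.2 i) ∧ α i < (z.2 i - z.1) * Real.log T / (2 * Real.pi) ∧
      (z.2 i - z.1) * Real.log T / (2 * Real.pi) < β i}

/-- the tuples `(x, y)`, `y = (y_i)`, of distinct ordinates in `(0, T]` of simple zeros of zeta on the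
critical line with all `(y_i - x) log T / 2π` in `[α_i, β_i]` -/
def zetaTuples {n : ℕ} (T : ℝ) (α β : Fin n → ℝ) : Set (ℝ × (Fin n → ℝ)) :=
  {z | 0 < z.1 ∧ z.1 ≤ T ∧ Simple riemannZeta z.1 ∧ Function.Injective z.2 ∧
    ∀ i, z.2 i ≠ z.1 ∧ 0 < z.2 i ∧ z.2 i ≤ T ∧ Simple riemannZeta (z.2 i) ∧
      α i ≤ (z.2 i - z.1) * Real.log T / (2 * Real.pi) ∧
      (z.2 i - z.1) * Real.log T / (2 * Real.pi) ≤ β i}

/-- modulus `1`: the Riemann zeta function -/
theorem zeta_case (χ : DirichletCharacter ℂ 1) :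
    χ.IsPrimitive ∧ DirichletCharacter.LFunction χ = riemannZeta := by
  refine ⟨?_, DirichletCharacter.LFunction_modOne_eq⟩
  rw [DirichletCharacter.level_one' χ rfl]
  exact DirichletCharacter.isPrimitive_one_level_one

lemma p_eq : p = 2 - H370.cMTinv := by
  unfold p H370.cMTinv
  ring

lemma p_num : 0.672497 ≤ p := by
  rw [p_eq]
  have := H370.Expl.cMTinv_num
  norm_num at this ⊢
  linarith

lemma tuples_eq {n : ℕ} (F₀ : ℂ → ℂ) (F : Fin n → ℂ → ℂ) {T : ℝ} (H : ℝ) (α β : Fin n → ℝ)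
    (hT : 1 < T) :
    tuples F₀ F T H α β = Lev F₀ F T H (2 * Real.pi / Real.log T) α β := by
  have hl : 0 < Real.log T := Real.log_pos hT
  have hpi := Real.pi_pos
  ext z
  simp only [tuples, Lev, Set.mem_ofPred_eq]
  refine and_congr_right fun _ => and_congr_right fun _ => and_congr_right fun _ =>
    and_congr_right fun _ => forall_congr' fun i => and_congr_right fun _ => and_congr ?_ ?_
  · rw [lt_div_iff₀ (by positivity), mul_div_assoc', div_lt_iff₀ hl]
  · rw [div_lt_iff₀ (by positivity), mul_div_assoc', lt_div_iff₀ hl]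

/-- the sets of tuples are finite -/
theorem tuples_finite {n : ℕ} (q₀ : ℕ) [NeZero q₀] (χ₀ : DirichletCharacter ℂ q₀)
    (q : Fin n → ℕ) [∀ i, NeZero (q i)] (χ : ∀ i, DirichletCharacter ℂ (q i))
    (h₀ : χ₀.IsPrimitive) (h : ∀ i, (χ i).IsPrimitive) (T H : ℝ) (α β : Fin n → ℝ)
    (hT : 2 ≤ T) (hα : ∀ i, 0 ≤ α i) :
    (tuples (DirichletCharacter.LFunction χ₀) (fun i => DirichletCharacter.LFunction (χ i))
      T H α β).Finite := by
  rw [tuples_eq _ _ _ _ _ (by linarith)]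
  have hl : 0 < Real.log T := Real.log_pos (by linarith)
  exact lev_finite (H370.good_dirichlet χ₀ h₀) (fun i => H370.good_dirichlet (χ i) (h i))
    (by linarith) (by positivity) hα

/-- the sets of tuples of ordinates of zeta are finite -/
theorem zetaTuples_finite {n : ℕ} (T : ℝ) (α β : Fin n → ℝ) : (zetaTuples T α β).Finite := by
  have h1 : {x : ℝ | 0 < x ∧ x ≤ T ∧ Simple riemannZeta x}.Finite := by
    refine Set.Finite.of_finite_image (f := fun x : ℝ => (1 / 2 + x * I : ℂ))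
      ((H370.zeta_zeros_finite T).subset ?_) ?_
    · rintro _ ⟨x, ⟨h1, h2, h3⟩, rfl⟩
      have hre : (1 / 2 + (x : ℂ) * I).re = 1 / 2 := by simp
      have him : (1 / 2 + (x : ℂ) * I).im = x := by simp
      refine ⟨?_, ?_, ?_, ?_, h3.1⟩
      · simp only [hre]; norm_num
      · simp only [hre]; norm_num
      · simp only [him]; exact h1
      · simp only [him]; exact h2
    · intro x _ y _ hxy
      have := congrArg Complex.im hxy
      simpa using this
  have h2 : (Set.pi Set.univ (fun _ : Fin n => {x : ℝ | 0 < x ∧ x ≤ T ∧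
      Simple riemannZeta x})).Finite := Set.Finite.pi' (fun _ => h1) |>.subset (by
    intro f hf i
    exact hf i (Set.mem_univ i))
  refine (h1.prod h2).subset ?_
  rintro ⟨x, y⟩ ⟨p1, p2, p3, -, p5⟩
  exact ⟨⟨p1, p2, p3⟩, fun i _ => ⟨(p5 i).2.1, (p5 i).2.2.1, (p5 i).2.2.2.1⟩⟩

/-- the part about zeta in the whole interval `(0, T]` -/
lemma whole {n r m : ℕ} (c : Fin n → Fin r)
    (hc : ∀ j, (Finset.univ.filter (fun i => c i = j)).card ≤ m) (hm : 1 ≤ m)
    (hr : 0 < ((r : ℝ) + 1) * p - r) :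
    ∃ L T₀ : ℝ, 0 < L ∧ ∀ T : ℝ, T₀ ≤ T → ∀ α β : Fin r → ℝ,
      (∀ j, 0 ≤ α j ∧ α j + L ≤ β j ∧ β j ≤ T * Real.log T / (8 * Real.pi)) →
      1 / 5 * (((r : ℝ) + 1) * p - r) ^ m * (∏ i, (β (c i) - α (c i))) *
        (T / (2 * Real.pi) * Real.log T) ≤
        ((zetaTuples T (fun i => α (c i)) (fun i => β (c i))).ncard : ℝ) := by
  classical
  have hpi := Real.pi_pos
  set B : ℝ := ((r : ℝ) + 1) * p - r with hB
  have hm0 : (0 : ℝ) < m := by exact_mod_cast (by omega : 0 < m)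
  have hm1 : (1 : ℝ) ≤ m := by exact_mod_cast hm
  set ε : ℝ := B / (10 * m) with hε
  have hε0 : 0 < ε := by positivity
  have hεB : ε ≤ B := by
    rw [hε, div_le_iff₀ (by positivity)]
    nlinarith
  have hB2 : ((r : ℝ) + 1) * (2 - H370.cMTinv) - r = B := by rw [hB, p_eq]
  obtain ⟨L₀, hL₀, d, hd0, hd1, h⟩ := levels c hc hm hε0 (by rw [hB2]; exact hεB)
  have hgz : H370.GoodL riemannZeta := H370.good_zeta
  obtain ⟨T₁, hT₁, hT⟩ := h riemannZeta (fun _ => riemannZeta) hgz (fun _ => hgz)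
  rw [hB2] at hT
  -- the ratio of the logarithms
  have hlim : Tendsto (fun T : ℝ => (1 - Real.log 2 / Real.log T) ^ (n + 1)) atTop (𝓝 1) := by
    have h1 : Tendsto (fun T : ℝ => Real.log 2 / Real.log T) atTop (𝓝 0) :=
      tendsto_const_nhds.div_atTop Real.tendsto_log_atTop
    have h2 := (tendsto_const_nhds (x := (1 : ℝ))).sub h1
    have h3 := h2.pow (n + 1)
    simpa using h3
  obtain ⟨T₂, hT₂⟩ := (hlim.eventually (eventually_ge_nhds (by norm_num : (9 / 10 : ℝ) < 1)))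
    |>.exists_forall_of_atTop
  obtain ⟨T₃, hT₃⟩ := (Real.tendsto_log_atTop.eventually_ge_atTop
    (4 * Real.log 2)).exists_forall_of_atTop
  have htop : Tendsto (fun T : ℝ => T ^ d) atTop atTop := tendsto_rpow_atTop hd0
  obtain ⟨T₄, hT₄⟩ := (htop.eventually_ge_atTop 4).exists_forall_of_atTop
  refine ⟨2 * L₀, max (max (2 * T₁) T₂) (max T₃ (2 * max T₄ 10)), by positivity,
    fun T hTT α β hαβ => ?_⟩
  have hTT1 : 2 * T₁ ≤ T := ((le_max_left _ _).trans (le_max_left _ _)).trans hTT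
  have hT2 := hT₂ T (((le_max_right _ _).trans (le_max_left _ _)).trans hTT)
  have hT3 := hT₃ T (((le_max_left _ _).trans (le_max_right _ _)).trans hTT)
  have hT45 : 2 * max T₄ 10 ≤ T := ((le_max_right _ _).trans (le_max_right _ _)).trans hTT
  have hT4 : 2 * T₄ ≤ T := by have := le_max_left T₄ 10; linarith
  have hT10 : 20 ≤ T := by have := le_max_right T₄ 10; linarith
  have hT0 : 0 < T := by linarith
  have hl2 : 0 < Real.log 2 := Real.log_pos (by norm_num)
  have hlog : 0 < Real.log T := by linarith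
  set ℓ : ℝ := Real.log T with hℓ
  have hℓ1 : Real.log (T / 2) = ℓ - Real.log 2 := Real.log_div hT0.ne' (by norm_num)
  set ℓ₁ : ℝ := Real.log (T / 2) with hℓ1d
  have hℓ10 : 0 < ℓ₁ := by rw [hℓ1]; linarith
  have hℓℓ : ℓ₁ ≤ ℓ := by rw [hℓ1]; linarith
  have hratio : 1 - Real.log 2 / ℓ = ℓ₁ / ℓ := by rw [hℓ1]; field_simp
  rw [hratio] at hT2
  have hhalf : 1 / 2 ≤ ℓ₁ / ℓ := by
    rw [le_div_iff₀ hlog, hℓ1]; linarith
  have hrat0 : 0 ≤ ℓ₁ / ℓ := by positivity
  have hd4 : (4 : ℝ) ≤ (T / 2) ^ d := hT₄ (T / 2) (by linarith)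
  have hT20 : 0 < T / 2 := by positivity
  -- the application
  have key := hT (T / 2) (by linarith) (T / 4) (by
      rw [Real.rpow_sub hT20, Real.rpow_one, div_le_iff₀ (by linarith)]
      nlinarith) (by linarith)
    (fun j => α j * (ℓ₁ / ℓ)) (fun j => β j * (ℓ₁ / ℓ)) (by
      intro j
      obtain ⟨a1, a2, a3⟩ := hαβ j
      refine ⟨mul_nonneg a1 hrat0, ?_, ?_⟩
      · have h1 : L₀ ≤ (β j - α j) * (ℓ₁ / ℓ) := by
          calc L₀ = (2 * L₀) * (1 / 2) := by ring
            _ ≤ (β j - α j) * (ℓ₁ / ℓ) := mul_le_mul (by linarith) hhalf (by norm_num) (by linarith)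
        have h2 : (β j - α j) * (ℓ₁ / ℓ) = β j * (ℓ₁ / ℓ) - α j * (ℓ₁ / ℓ) := by ring
        linarith
      · have h1 : β j * (ℓ₁ / ℓ) * (2 * Real.pi / ℓ₁) = β j * (2 * Real.pi / ℓ) := by
          field_simp
        rw [h1]
        have h2 : β j * (2 * Real.pi / ℓ) ≤ T / 4 := by
          have h3 := mul_le_mul_of_nonneg_right a3 (by positivity : 0 ≤ 2 * Real.pi / ℓ)
          refine h3.trans (le_of_eq ?_)
          field_simp
          ring
        refine h2.trans ?_
        rw [Real.rpow_add hT20, Real.rpow_one]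
        nlinarith)
  -- comparison of the sets
  have hsub : Lev riemannZeta (fun _ : Fin n => riemannZeta) (T / 2) (T / 4)
      (2 * Real.pi / ℓ₁) (fun i => α (c i) * (ℓ₁ / ℓ)) (fun i => β (c i) * (ℓ₁ / ℓ)) ⊆
      zetaTuples T (fun i => α (c i)) (fun i => β (c i)) := by
    rintro ⟨x, y⟩ ⟨h1, h2, h3, h4, h5⟩
    simp only at h1 h2 h3 h4 h5
    refine ⟨by simp only; linarith, by simp only; linarith, h3, h4, fun i => ?_⟩
    obtain ⟨g1, g2, g3⟩ := h5 i
    obtain ⟨a1, a2, a3⟩ := hαβ (c i)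
    have e1 : α (c i) * (ℓ₁ / ℓ) * (2 * Real.pi / ℓ₁) = α (c i) * (2 * Real.pi / ℓ) := by
      field_simp
    have e2 : β (c i) * (ℓ₁ / ℓ) * (2 * Real.pi / ℓ₁) = β (c i) * (2 * Real.pi / ℓ) := by
      field_simp
    rw [e1] at g2
    rw [e2] at g3
    have e3 : β (c i) * (2 * Real.pi / ℓ) ≤ T / 4 := by
      have h3 := mul_le_mul_of_nonneg_right a3 (by positivity : 0 ≤ 2 * Real.pi / ℓ)
      refine h3.trans (le_of_eq ?_)
      field_simp
      ring
    have e4 : 0 ≤ α (c i) * (2 * Real.pi / ℓ) := by positivity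
    simp only
    refine ⟨by intro h; linarith, by linarith, by linarith, g1, ?_, ?_⟩
    · rw [le_div_iff₀ (by positivity)]
      rw [mul_div_assoc', div_lt_iff₀ hlog] at g2
      linarith
    · rw [div_le_iff₀ (by positivity)]
      rw [mul_div_assoc', lt_div_iff₀ hlog] at g3
      linarith
  have hcard : ((Lev riemannZeta (fun _ : Fin n => riemannZeta) (T / 2) (T / 4)
      (2 * Real.pi / ℓ₁) (fun i => α (c i) * (ℓ₁ / ℓ)) (fun i => β (c i) * (ℓ₁ / ℓ))).ncard : ℝ) ≤
      ((zetaTuples T (fun i => α (c i)) (fun i => β (c i))).ncard : ℝ) := by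
    exact_mod_cast Set.ncard_le_ncard hsub (zetaTuples_finite T _ _)
  refine le_trans ?_ (key.trans hcard)
  -- the constants
  set V : ℝ := ∏ i, (β (c i) - α (c i)) with hV
  have hV0 : 0 ≤ V := Finset.prod_nonneg fun i _ => by
    have := (hαβ (c i)).2.1
    linarith
  have hV1 : ∏ i, (β (c i) * (ℓ₁ / ℓ) - α (c i) * (ℓ₁ / ℓ)) = V * (ℓ₁ / ℓ) ^ n := by
    have h1 : (ℓ₁ / ℓ) ^ n = ∏ _i : Fin n, (ℓ₁ / ℓ) := by
      rw [Finset.prod_const, Finset.card_univ, Fintype.card_fin]
    rw [hV, h1, ← Finset.prod_mul_distrib]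
    refine Finset.prod_congr rfl fun i _ => ?_
    ring
  rw [hV1]
  have hbern : B ^ m * (9 / 10) ≤ (B - ε) ^ m := by
    have h1 : B - ε = B * (1 + -(1 / (10 * m))) := by rw [hε]; ring
    rw [h1, mul_pow]
    apply mul_le_mul_of_nonneg_left _ (by positivity)
    have h2 : (-2 : ℝ) ≤ -(1 / (10 * m)) := by
      have : 1 / (10 * (m : ℝ)) ≤ 1 := by
        rw [div_le_one (by positivity)]; linarith
      linarith
    have h3 := one_add_mul_le_pow h2 m
    refine le_trans (le_of_eq ?_) h3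
    field_simp
    norm_num
  have hX : (T / 4) / (2 * Real.pi) * ℓ₁ = 1 / 4 * (ℓ₁ / ℓ) * (T / (2 * Real.pi) * ℓ) := by
    field_simp
  rw [hX]
  have hX0 : 0 ≤ T / (2 * Real.pi) * ℓ := by positivity
  have hfin : 1 / 5 * B ^ m ≤ (B - ε) ^ m * (ℓ₁ / ℓ) ^ (n + 1) * (1 / 4) := by
    have h1 : B ^ m * (9 / 10) * (9 / 10) ≤ (B - ε) ^ m * (ℓ₁ / ℓ) ^ (n + 1) :=
      mul_le_mul hbern hT2 (by norm_num) (pow_nonneg (by linarith) _)
    have h2 : 0 ≤ B ^ m := by positivity
    linarith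
  calc 1 / 5 * B ^ m * V * (T / (2 * Real.pi) * ℓ) ≤
        (B - ε) ^ m * (ℓ₁ / ℓ) ^ (n + 1) * (1 / 4) * V * (T / (2 * Real.pi) * ℓ) :=
        mul_le_mul_of_nonneg_right (mul_le_mul_of_nonneg_right hfin hV0) hX0
    _ = _ := by ring

/-- **Main theorem.** -/
theorem result :
    (∀ (n r m : ℕ) (c : Fin n → Fin r),
      (∀ j, (Finset.univ.filter (fun i => c i = j)).card ≤ m) → 1 ≤ m →
      ∀ ε : ℝ, 0 < ε → ε ≤ ((r : ℝ) + 1) * p - r →
      ∃ L δ : ℝ, 0 < L ∧ 0 < δ ∧ δ < 1 ∧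
      ∀ (q₀ : ℕ) [NeZero q₀] (χ₀ : DirichletCharacter ℂ q₀) (q : Fin r → ℕ) [∀ j, NeZero (q j)]
        (χ : ∀ j, DirichletCharacter ℂ (q j)), χ₀.IsPrimitive → (∀ j, (χ j).IsPrimitive) →
      ∃ T₀ : ℝ, ∀ T : ℝ, T₀ ≤ T → ∀ H : ℝ, T ^ (1 - δ) ≤ H → H ≤ T → ∀ α β : Fin r → ℝ,
        (∀ j, 0 ≤ α j ∧ α j + L ≤ β j ∧ β j * (2 * Real.pi / Real.log T) ≤ T ^ (1 + δ)) →
        (((r : ℝ) + 1) * p - r - ε) ^ m * (∏ i, (β (c i) - α (c i))) *
          (H / (2 * Real.pi) * Real.log T) ≤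
          ((tuples (DirichletCharacter.LFunction χ₀)
            (fun i => DirichletCharacter.LFunction (χ (c i))) T H (fun i => α (c i))
            (fun i => β (c i))).ncard : ℝ)) ∧
    (∀ (n r m : ℕ) (c : Fin n → Fin r),
      (∀ j, (Finset.univ.filter (fun i => c i = j)).card ≤ m) → 1 ≤ m →
      0 < ((r : ℝ) + 1) * p - r →
      ∃ L T₀ : ℝ, 0 < L ∧ ∀ T : ℝ, T₀ ≤ T → ∀ α β : Fin r → ℝ,
        (∀ j, 0 ≤ α j ∧ α j + L ≤ β j ∧ β j ≤ T * Real.log T / (8 * Real.pi)) →
        1 / 5 * (((r : ℝ) + 1) * p - r) ^ m * (∏ i, (β (c i) - α (c i))) *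
          (T / (2 * Real.pi) * Real.log T) ≤
          ((zetaTuples T (fun i => α (c i)) (fun i => β (c i))).ncard : ℝ)) ∧
    0.344994 ≤ 2 * p - 1 ∧ 0.017491 ≤ 3 * p - 2 := by
  refine ⟨?_, ?_, ?_, ?_⟩
  · intro n r m c hc hm ε hε hεr
    have hB2 : ((r : ℝ) + 1) * (2 - H370.cMTinv) - r = ((r : ℝ) + 1) * p - r := by rw [p_eq]
    obtain ⟨L, hL, d, hd0, hd1, h⟩ := levels c hc hm hε (by rw [hB2]; exact hεr)
    refine ⟨L, d, hL, hd0, hd1, ?_⟩
    intro q₀ _ χ₀ q _ χ h₀ hχ
    obtain ⟨T₀, hT₀, hT⟩ := h (DirichletCharacter.LFunction χ₀)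
      (fun j => DirichletCharacter.LFunction (χ j)) (H370.good_dirichlet χ₀ h₀)
      (fun j => H370.good_dirichlet (χ j) (hχ j))
    refine ⟨T₀, fun T hTT H hH1 hH2 α β hαβ => ?_⟩
    have h1 := hT T hTT H hH1 hH2 α β hαβ
    rw [hB2] at h1
    rw [tuples_eq _ _ _ _ _ (by linarith)]
    exact h1
  · intro n r m c hc hm hr
    exact whole c hc hm hr
  · have := p_num
    norm_num at this ⊢
    linarith
  · have := p_num
    norm_num at this ⊢
    linarith

end Pool.Agent.Results.MP_67227b_nt.KLevelLongBoxes
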