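import Pool.Agent.TH850.UV.NVh

/-!
# The number variance of the zeta zeros, unconditionally and with bounded error

For windows of `a` mean spacings, the mean square of the difference between the number of zeros in
the window and `a` is `(1 / π ^ 2) log (1 + a) + O(1)`, uniformly for `a log a ≪ log T`.  This is
the order, with the right constant, of the number variance of the eigenvalues in the Gaussian
unitary ensemble.  No hypothesis is made on the zeros.
-/

open MeasureTheory

namespace Pool.Agent.Results.MP_67227b_nt.NumberVariance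

/-- the nontrivial zeros of zeta, on the critical line or not -/
def zeros : Set ℂ := {s : ℂ | riemannZeta s = 0 ∧ 0 < s.re ∧ s.re < 1}

/-- the number of nontrivial zeros with ordinate in `(t, t + h]`, counted with multiplicity -/
noncomputable def count (t h : ℝ) : ℕ :=
  ∑ᶠ s ∈ {s : ℂ | s ∈ zeros ∧ t < s.im ∧ s.im ≤ t + h}, analyticOrderNatAt riemannZeta s

/-- For every `B ≥ 1` there are `C` and `T₀` such that, for all `T ≥ T₀` and all `a > 0` with
`a log a ≤ B log T`, the integral over `t ∈ [T, 2T]` of the square of the number of zeros in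
`(t, t + 2 π a / log T]` minus `a` is `T ((1 / π ^ 2) log (1 + a) + O(1))`. -/
theorem result :
    ∀ B : ℝ, 1 ≤ B → ∃ C T₀ : ℝ, ∀ T : ℝ, T₀ ≤ T → ∀ a : ℝ, 0 < a →
      a * Real.log a ≤ B * Real.log T →
      IntervalIntegrable (fun t => ((count t (2 * Real.pi * a / Real.log T) : ℝ) - a) ^ 2)
        volume T (2 * T) ∧
      |(∫ t in T..(2 * T), ((count t (2 * Real.pi * a / Real.log T) : ℝ) - a) ^ 2) -
        T / Real.pi ^ 2 * Real.log (1 + a)| ≤ C * T := by
  intro B hB
  obtain ⟨C, T0, _, _, h⟩ := Pool.Agent.TH850.UV.nv2 B hB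
  exact ⟨C, T0, fun T hT a ha haL => h T hT a ha haL⟩

end Pool.Agent.Results.MP_67227b_nt.NumberVariance
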