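import Pool.Agent.TH300.ZS.Full
import Pool.Agent.TH300.ZS.Fin

/-!
# Patterns of zeros near subsets of every set of numbers, unconditionally

No hypothesis is assumed.  Let `p = 2 - cMT⁻¹ = 0.6725...`, `k ≥ 1`, `0 < r ≤ 9/10`.

1. If `m r p > k` then among any `m` numbers `a_1, …, a_m` of `[0, κ T log T]` (with distances at
least `r`) there are `k + 1` such that for a positive proportion of the zeros of zeta in `(0, T]`
there are `k` further zeros which form with it, up to `r` mean spacings, a translate of these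
`k + 1` numbers (in mean spacings): `N_{k+1}(T; B) ≫ T log T` for the box `B` of half side `r`
around their differences.
2. The inequality behind 1, summed over all `(k+1)`-subsets, also for the primitive Dirichlet
L-functions in the intervals `(T, T + H]`, `T ^ h ≤ H ≤ T`.

Idea of the proof.  By the trace inequality with the Montgomery-Taylor kernel and tridiagonal test
matrices, the union `U` of the intervals of length `r` mean spacings centred at the simple critical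
zeros has measure at least `p r` times the length of the interval.  The number of the translates
`U + a_i` which contain a point `t` is therefore at least `m p r` on average; convexity of the
binomial coefficients bounds below the measure of the `(k+1)`-fold overlaps.
-/

open Filter Topology Complex MeasureTheory

namespace Pool.Agent.Results.MP_67227b_nt.PatternsInTranslates

/-- the nontrivial zeros of `F` with ordinate in `(T₁, T₂]` -/
def zeros (F : ℂ → ℂ) (T₁ T₂ : ℝ) : Set ℂ :=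
  {s : ℂ | F s = 0 ∧ 0 < s.re ∧ s.re < 1 ∧ T₁ < s.im ∧ s.im ≤ T₂}

/-- the multiplicity of a zero -/
noncomputable def mult (F : ℂ → ℂ) (s : ℂ) : ℕ := analyticOrderNatAt F s

/-- `x` is the ordinate in `(T₁, T₂]` of a simple zero of `F` on the critical line -/
def IsSimpleOrd (F : ℂ → ℂ) (T₁ T₂ x : ℝ) : Prop :=
  (1 / 2 + x * I : ℂ) ∈ zeros F T₁ T₂ ∧ mult F (1 / 2 + x * I : ℂ) = 1

/-- for a set `I` of indices: the number of the families `(x_i)`, `i ∈ I`, of ordinates in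
`(T₁, T₂]` of simple zeros of `F` on the critical line such that all the normalised differences
`(x_i - x_j) * log τ / 2π` are within `r` of `a_i - a_j` -/
noncomputable def P (F : ℂ → ℂ) (τ T₁ T₂ r : ℝ) {m : ℕ} (a : Fin m → ℝ) (I : Finset (Fin m)) : ℕ :=
  {x : I → ℝ | (∀ i, IsSimpleOrd F T₁ T₂ (x i)) ∧
    ∀ i j : I, |(x i - x j) * Real.log τ / (2 * Real.pi) - (a i - a j)| < r}.ncard

/-- the number of nontrivial zeros of `ζ` with ordinate in `(0, t]`, with multiplicity -/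
noncomputable def NZ (t : ℝ) : ℕ := ∑ᶠ s ∈ zeros riemannZeta 0 t, mult riemannZeta s

/-- for `n ≥ 1`: the `n`-th positive ordinate `γ n` of a nontrivial zero of `ζ`, the ordinates being
listed in nondecreasing order and repeated according to multiplicity -/
noncomputable def γ (n : ℕ) : ℝ := sInf {t : ℝ | n ≤ NZ t}

/-- `N_{k+1}(T; B)` with `B = ∏ [α_l, β_l]`, `l < k`: the number of `(k+1)`-tuples of pairwise
distinct indices with ordinates at most `T` whose normalised differences with the last ordinate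
lie in the box `B` -/
noncomputable def Nk (k : ℕ) (T : ℝ) (α β : Fin k → ℝ) : ℕ :=
  {j : Fin (k + 1) → ℕ | Function.Injective j ∧ (∀ i, 1 ≤ j i ∧ γ (j i) ≤ T) ∧
    ∀ i : Fin k, (γ (j i.castSucc) - γ (j (Fin.last k))) * (Real.log T / (2 * Real.pi)) ∈
      Set.Icc (α i) (β i)}.ncard

/-- the Montgomery-Taylor constant -/
noncomputable def cMT : ℝ :=
  Real.sqrt 2 * Real.tan (1 / Real.sqrt 2) / (1 + Real.tan (1 / Real.sqrt 2) / Real.sqrt 2)

/-- the mean square of the Montgomery-Taylor window, `1.0062...` -/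
noncomputable def R0 : ℝ :=
  (1 + Real.sin (Real.sqrt 2) / Real.sqrt 2) / (4 * Real.sin (1 / Real.sqrt 2) ^ 2)

/-- the constant for intervals of length `T^h`; `c 1 = cMT⁻¹ = 1.3274...` -/
noncomputable def c (h : ℝ) : ℝ := R0 / h + h * (cMT⁻¹ - R0)

lemma zeros_eq (F : ℂ → ℂ) (T₁ T₂ : ℝ) : zeros F T₁ T₂ = H370.zset F T₁ T₂ := by
  ext s
  simp only [zeros, H370.zset, Set.mem_ofPred_eq]
  tauto

/-- modulus `1`: the Riemann zeta function -/
theorem zeta_case (χ : DirichletCharacter ℂ 1) :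
    χ.IsPrimitive ∧ DirichletCharacter.LFunction χ = riemannZeta := by
  refine ⟨?_, DirichletCharacter.LFunction_modOne_eq⟩
  rw [DirichletCharacter.level_one' χ rfl]
  exact DirichletCharacter.isPrimitive_one_level_one

/-- the sets of zeros of zeta are finite -/
theorem zeros_finite_zeta (T : ℝ) : (zeros riemannZeta 0 T).Finite := by
  rw [zeros_eq]
  exact H370.zeta_zeros_finite T

/-- the sets of zeros of the L-functions are finite -/
theorem zeros_finite {q : ℕ} [NeZero q] (χ : DirichletCharacter ℂ q) (hχ : χ.IsPrimitive)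
    (T₁ T₂ : ℝ) (hT : 1 ≤ T₁) : (zeros (DirichletCharacter.LFunction χ) T₁ T₂).Finite := by
  rw [zeros_eq]
  exact H370.zset_finite (H370.good_dirichlet χ hχ) T₁ T₂ hT

theorem cMT_inv : cMT⁻¹ = H370.cMTinv := H370.cMTinv_eq

theorem c_eq {h : ℝ} (hh : 0 < h) : c h = H295Iso.c0 h := by
  have h1 : cMT⁻¹ = H370.cMTinv := H370.cMTinv_eq
  have h2 := H228SI.constS 1 one_pos le_rfl
  have h4 : Real.sqrt 2 / 2 = 1 / Real.sqrt 2 := by
    rw [div_eq_div_iff (by norm_num) (by positivity), Real.mul_self_sqrt (by norm_num), one_mul]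
  have h3 : H295SI.RS (Real.sqrt 2) 0 = R0 := by
    unfold H295SI.RS R0
    have hs : Real.sqrt 2 ^ 2 = 2 := Real.sq_sqrt (by norm_num)
    rw [if_pos (by norm_num), hs, h4]
    simp only [abs_zero, sub_zero, mul_zero, Real.cos_zero, mul_one]
    ring
  have h5 : H295SI.cc 1 = H370.cMTinv := by
    unfold H295SI.cc H370.cMTinv
    rfl
  rw [mul_one, h5] at h2
  unfold c H295Iso.c0 H295SI.cR
  unfold H295SI.cR at h2
  rw [h3] at h2 ⊢
  rw [h1, ← h2]
  ring

lemma c_nonneg {h : ℝ} (hh : 0 < h) (hh1 : h ≤ 1) : 0 ≤ c h := by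
  have h1 : cMT⁻¹ = H370.cMTinv := H370.cMTinv_eq
  have h2 := H344.cMTinv_ge
  have hs : 0 ≤ Real.sin (Real.sqrt 2) := by
    apply Real.sin_nonneg_of_nonneg_of_le_pi (Real.sqrt_nonneg _)
    have : Real.sqrt 2 ≤ 2 := by
      rw [Real.sqrt_le_left (by norm_num)]; norm_num
    linarith [Real.pi_gt_three]
  have hR : 0 ≤ R0 := by unfold R0; positivity
  have e : c h = R0 * (1 / h - h) + h * cMT⁻¹ := by unfold c; ring
  rw [e, h1]
  have h3 : h ≤ 1 / h := by
    rw [le_div_iff₀ hh]; nlinarith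
  have h4 : 0 ≤ R0 * (1 / h - h) := mul_nonneg hR (by linarith)
  have h5 : 0 ≤ h * H370.cMTinv := mul_nonneg hh.le (by linarith)
  linarith

lemma ord_finite {F : ℂ → ℂ} {T₁ T₂ : ℝ} (hfin : (zeros F T₁ T₂).Finite) :
    {x : ℝ | IsSimpleOrd F T₁ T₂ x}.Finite := by
  refine Set.Finite.of_finite_image (f := fun x : ℝ => (1 / 2 + x * I : ℂ))
    (hfin.subset ?_) ?_
  · rintro s ⟨x, hx, rfl⟩
    exact hx.1
  · intro x _ y _ hxy
    have := congrArg Complex.im hxy
    simpa using this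


/-! ### The list of the ordinates -/

lemma NZ_eq (t : ℝ) : NZ t = ∑ s ∈ (zeros_finite_zeta t).toFinset, mult riemannZeta s :=
  finsum_mem_eq_finite_toFinset_sum _ (zeros_finite_zeta t)

lemma mult_pos {s : ℂ} (hs : 0 < s.im) (h0 : riemannZeta s = 0) : 1 ≤ mult riemannZeta s :=
  H370.Loc.mult_pos' H370.good_zeta hs h0

lemma NZ_add_le (t' t : ℝ) (h : t' ≤ t) (A : Finset ℂ)
    (hA : ∀ s ∈ A, s ∈ zeros riemannZeta 0 t ∧ t' < s.im) :
    NZ t' + ∑ s ∈ A, mult riemannZeta s ≤ NZ t := by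
  classical
  rw [NZ_eq, NZ_eq, ← Finset.sum_union]
  · apply Finset.sum_le_sum_of_subset
    intro s hs
    rcases Finset.mem_union.mp hs with hs | hs
    · rw [Set.Finite.mem_toFinset] at hs ⊢
      exact ⟨hs.1, hs.2.1, hs.2.2.1, hs.2.2.2.1, hs.2.2.2.2.trans h⟩
    · rw [Set.Finite.mem_toFinset]
      exact (hA s hs).1
  · rw [Finset.disjoint_left]
    intro s hs hs'
    rw [Set.Finite.mem_toFinset] at hs
    exact absurd hs.2.2.2.2 (not_le.mpr (hA s hs').2)

lemma NZ_mono : Monotone NZ := by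
  intro a b h
  have := NZ_add_le a b h ∅ (by simp)
  simpa using this

lemma NZ_lt {t x : ℝ} (h : t < x) (hx : IsSimpleOrd riemannZeta 0 x x) : NZ t < NZ x := by
  have him : (1 / 2 + (x : ℂ) * I).im = x := by simp
  have h1 := NZ_add_le t x h.le {(1 / 2 + (x : ℂ) * I)} (by
    intro z hz
    rw [Finset.mem_singleton] at hz
    subst hz
    exact ⟨hx.1, by rw [him]; exact h⟩)
  rw [Finset.sum_singleton, hx.2] at h1
  omega

lemma ord_self {T₁ T x : ℝ} (hT : 0 ≤ T₁) (hx : IsSimpleOrd riemannZeta T₁ T x) :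
    IsSimpleOrd riemannZeta 0 x x := by
  have him : (1 / 2 + (x : ℂ) * I).im = x := by simp
  refine ⟨⟨hx.1.1, hx.1.2.1, hx.1.2.2.1, lt_of_le_of_lt hT hx.1.2.2.2.1, ?_⟩, hx.2⟩
  rw [him]

lemma ord_bd {F : ℂ → ℂ} {T₁ T₂ x : ℝ} (hx : IsSimpleOrd F T₁ T₂ x) : T₁ < x ∧ x ≤ T₂ := by
  have him : (1 / 2 + (x : ℂ) * I).im = x := by simp
  have := hx.1.2.2.2
  rw [him] at this
  exact this

lemma γ_NZ {x : ℝ} (hx : IsSimpleOrd riemannZeta 0 x x) : γ (NZ x) = x := by
  have : IsLeast {t : ℝ | NZ x ≤ NZ t} x := by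
    refine ⟨show NZ x ≤ NZ x from le_rfl, fun t ht => ?_⟩
    by_contra hcon
    push Not at hcon
    exact absurd ht (not_le.mpr (NZ_lt hcon hx))
  exact this.csInf_eq

lemma NZ_pos {x : ℝ} (hx : IsSimpleOrd riemannZeta 0 x x) : 1 ≤ NZ x := by
  have h1 := NZ_lt (ord_bd hx).1 hx
  omega

lemma NZ_unbounded (n : ℕ) : ∃ t : ℝ, n ≤ NZ t := by
  obtain ⟨T₀, hT₀, h⟩ := Pool.Agent.TH300.ZS.nbhd_full (ε := 1 / 10) (by norm_num) (by norm_num)
  have hcn := H370.Expl.cMTinv_num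
  -- there are simple ordinates above every bound
  have habove : ∀ B : ℝ, ∃ x, B < x ∧ IsSimpleOrd riemannZeta 0 x x := by
    intro B
    by_contra hcon
    push Not at hcon
    set T := max T₀ (100 * (|B| + 10)) with hT
    have hTB : 100 * (|B| + 10) ≤ T := le_max_right _ _
    have hB0 := abs_nonneg B
    have hBB := le_abs_self B
    have hT0 : 0 < T := by linarith
    obtain ⟨S, hS⟩ := Pool.Agent.TH300.ZS.isAF_exists T
    have hlog : 1 ≤ Real.log T := by
      rw [Real.le_log_iff_exp_le hT0]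
      have := Real.exp_one_lt_d9
      linarith
    have h1 := h T (le_max_left _ _) S hS (1 / 10) (by norm_num) (by norm_num)
    have hSB : ∀ x ∈ S, 0 ≤ x ∧ x ≤ |B| := by
      intro x hx
      obtain ⟨a3, a4⟩ := (hS x).mp hx
      rw [mul_comm] at a3 a4
      have hx1 : IsSimpleOrd riemannZeta 0 T x := ⟨by rw [zeros_eq]; exact a3, a4⟩
      refine ⟨(ord_bd hx1).1.le, ?_⟩
      by_contra hc
      push Not at hc
      exact hcon x (by linarith) (ord_self le_rfl hx1)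
    have h2 := Pool.Agent.W201.UU_sub (r := 1 / 10 * (2 * Real.pi / Real.log T) / 2) hSB
    have h3 := ENNReal.toReal_mono (by rw [Real.volume_Ioo]; exact ENNReal.ofReal_ne_top)
      (measure_mono (μ := volume) h2)
    have hpi := Real.pi_lt_four
    have hpi0 := Real.pi_pos
    have h4 : 2 * Real.pi / Real.log T ≤ 8 := by
      rw [div_le_iff₀ (by linarith)]; nlinarith
    have h40 : 0 < 2 * Real.pi / Real.log T := by positivity
    rw [Real.volume_Ioo, ENNReal.toReal_ofReal (by linarith)] at h3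
    norm_num at hcn
    nlinarith
  induction n with
  | zero => exact ⟨0, Nat.zero_le _⟩
  | succ n ih =>
    obtain ⟨t, ht⟩ := ih
    obtain ⟨x, hx1, hx2⟩ := habove t
    have := NZ_lt hx1 hx2
    exact ⟨x, by omega⟩

lemma le_of_γ_le {n : ℕ} {T : ℝ} (h : γ n ≤ T) : n ≤ NZ (T + 1) := by
  by_contra hcon
  push Not at hcon
  have h1 : T + 1 ≤ γ n := by
    obtain ⟨t, ht⟩ := NZ_unbounded n
    refine le_csInf ⟨t, ht⟩ fun u hu => ?_
    by_contra hc
    push Not at hc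
    have h2 : n ≤ NZ u := hu
    have h3 := NZ_mono hc.le
    omega
  linarith

/-- the set counted by `N_{k+1}(T; B)` is finite -/
lemma Nk_finite (k : ℕ) (T : ℝ) (α β : Fin k → ℝ) :
    {j : Fin (k + 1) → ℕ | Function.Injective j ∧ (∀ i, 1 ≤ j i ∧ γ (j i) ≤ T) ∧
    ∀ i : Fin k, (γ (j i.castSucc) - γ (j (Fin.last k))) * (Real.log T / (2 * Real.pi)) ∈
      Set.Icc (α i) (β i)}.Finite := by
  refine (Set.Finite.pi (fun _ : Fin (k + 1) => Set.finite_Iic (NZ (T + 1)))).subset ?_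
  rintro j ⟨-, h2, -⟩
  rw [Set.mem_pi]
  intro i _
  exact le_of_γ_le (h2 i).2

/-- from families of simple ordinates to `N_{k+1}(T; B)` -/
lemma Nk_ge {k : ℕ} {T : ℝ} (α β : Fin k → ℝ) {X : Set (Fin (k + 1) → ℝ)} (hX :
    ∀ x ∈ X, Function.Injective x ∧ (∀ i, IsSimpleOrd riemannZeta 0 T (x i)) ∧
      ∀ i : Fin k, (x i.castSucc - x (Fin.last k)) * (Real.log T / (2 * Real.pi)) ∈
        Set.Icc (α i) (β i)) : X.ncard ≤ Nk k T α β := by
  have hinj : ∀ x y : ℝ, IsSimpleOrd riemannZeta 0 T x → IsSimpleOrd riemannZeta 0 T y →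
      NZ x = NZ y → x = y := by
    intro x y hx hy h
    rw [← γ_NZ (ord_self le_rfl hx), ← γ_NZ (ord_self le_rfl hy), h]
  unfold Nk
  refine Set.ncard_le_ncard_of_injOn (fun x i => NZ (x i)) ?_ ?_ (Nk_finite k T α β)
  · intro x hx
    obtain ⟨h1, h2, h3⟩ := hX x hx
    have hγ : ∀ i, γ (NZ (x i)) = x i := fun i => γ_NZ (ord_self le_rfl (h2 i))
    refine ⟨fun i j hij => h1 (hinj _ _ (h2 i) (h2 j) hij), fun i => ⟨NZ_pos (ord_self le_rfl (h2 i)),
      by rw [hγ]; exact (ord_bd (h2 i)).2⟩, fun i => ?_⟩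
    rw [hγ, hγ]
    exact h3 i
  · intro x hx y hy hxy
    funext i
    exact hinj _ _ ((hX x hx).2.1 i) ((hX y hy).2.1 i) (congrFun hxy i)

/-! ### The patterns -/

lemma P_finite {F : ℂ → ℂ} {T₁ T₂ : ℝ} (hfin : (zeros F T₁ T₂).Finite) (τ r : ℝ) {m : ℕ}
    (a : Fin m → ℝ) (I : Finset (Fin m)) :
    {x : I → ℝ | (∀ i, IsSimpleOrd F T₁ T₂ (x i)) ∧
    ∀ i j : I, |(x i - x j) * Real.log τ / (2 * Real.pi) - (a i - a j)| < r}.Finite := by
  refine (Set.Finite.pi (fun _ : I => ord_finite hfin)).subset ?_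
  rintro x ⟨h, -⟩
  rw [Set.mem_pi]
  intro i _
  exact h i

lemma P_ge {F : ℂ → ℂ} {T₁ T₂ : ℝ} (hfin : (zeros F T₁ T₂).Finite) {τ : ℝ} (hτ : 1 < τ) (r D : ℝ)
    {m : ℕ} (a : Fin m → ℝ) (I : Finset (Fin m)) {S : Finset ℝ}
    (hS : ∀ x ∈ S, IsSimpleOrd F T₁ T₂ x) :
    Pool.Agent.TH300.ZS.tup S (fun i => (D - a i) * (2 * Real.pi / Real.log τ)) I
      (r * (2 * Real.pi / Real.log τ)) ≤ P F τ T₁ T₂ r a I := by
  classical
  have hpi := Real.pi_pos
  have hlog : 0 < Real.log τ := Real.log_pos hτ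
  set σ : ℝ := 2 * Real.pi / Real.log τ with hσ
  have hσ0 : 0 < σ := by positivity
  unfold Pool.Agent.TH300.ZS.tup P
  rw [← Set.ncard_coe_finset]
  apply Set.ncard_le_ncard _ (P_finite hfin τ r a I)
  intro x hx
  rw [Finset.mem_coe, Finset.mem_filter, Fintype.mem_piFinset] at hx
  refine ⟨fun i => hS _ (hx.1 i), fun i j => ?_⟩
  have h1 := hx.2 i j
  have e : x i + (D - a i) * σ - (x j + (D - a j) * σ) =
      ((x i - x j) * Real.log τ / (2 * Real.pi) - (a i - a j)) * σ := by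
    rw [hσ]; field_simp; ring
  rw [e, abs_mul, abs_of_pos hσ0] at h1
  exact lt_of_mul_lt_mul_right h1 hσ0.le

/-- the common final step of the proof of the inequality -/
lemma core {F : ℂ → ℂ} {τ T₁ H p ε κ r : ℝ} (hfin : (zeros F T₁ (T₁ + H)).Finite) (hτ : 1 < τ)
    (hH : 0 < H) (hr : 0 < r) (hp : p ≤ 2) (hε : 0 < ε) (hκ0 : 0 ≤ κ) (S : Finset ℝ)
    (hS : ∀ x ∈ S, IsSimpleOrd F T₁ (T₁ + H) x)
    (hU : r * (p - ε / 3) * H ≤
      (volume (Pool.Agent.W201.UU (r * (2 * Real.pi / Real.log τ) / 2) S)).toReal)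
    (hκ : 2 * Real.pi * κ + r * (2 * Real.pi / Real.log τ) / H ≤ ε / 3) {m : ℕ}
    (a : Fin m → ℝ) (ha : ∀ i, 0 ≤ a i ∧ a i ≤ κ * (H * Real.log τ)) (k n : ℕ) :
    (n.choose k * m * (p - ε) - k * (n + 1).choose (k + 1) / r) *
      (H / (2 * Real.pi) * Real.log τ) ≤
      ∑ I ∈ Finset.powersetCard (k + 1) (Finset.univ : Finset (Fin m)),
        (P F τ T₁ (T₁ + H) r a I : ℝ) := by
  classical
  have hpi := Real.pi_pos
  have hlog : 0 < Real.log τ := Real.log_pos hτ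
  set σ : ℝ := 2 * Real.pi / Real.log τ with hσ
  have hσ0 : 0 < σ := by positivity
  have hS' : ∀ x ∈ S, T₁ ≤ x ∧ x ≤ T₁ + H := fun x hx =>
    ⟨(ord_bd (hS x hx)).1.le, (ord_bd (hS x hx)).2⟩
  have h1 := Pool.Agent.TH300.ZS.tup_fin hσ0 hH hr hp hε (by positivity) hS' hU hκ
    (fun i => (κ * (H * Real.log τ) - a i) * σ) (fun i => ⟨mul_nonneg (by linarith [(ha i).2]) hσ0.le, by
      have h2 : (κ * (H * Real.log τ) - a i) * σ ≤ κ * (H * Real.log τ) * σ :=
        mul_le_mul_of_nonneg_right (by linarith [(ha i).1]) hσ0.le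
      have e : κ * (H * Real.log τ) * σ = 2 * Real.pi * κ * H := by rw [hσ]; field_simp
      linarith⟩) k n
  have e1 : (H / σ) = H / (2 * Real.pi) * Real.log τ := by rw [hσ]; field_simp
  rw [e1] at h1
  refine h1.trans (Finset.sum_le_sum fun I _ => ?_)
  exact_mod_cast P_ge hfin hτ r _ a I hS

lemma hκ_aux {ε T H r : ℝ} (hε : 0 < ε) (hT : 1 < T) (hH : 6 / ε ≤ H) (hH0 : 0 < H)
    (h3 : r * (2 * Real.pi / Real.log T) ≤ 1) :
    2 * Real.pi * (ε / (6 * (2 * Real.pi))) + r * (2 * Real.pi / Real.log T) / H ≤ ε / 3 := by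
  have hpi := Real.pi_pos
  have e : 2 * Real.pi * (ε / (6 * (2 * Real.pi))) = ε / 6 := by field_simp
  rw [e]
  have h4 : r * (2 * Real.pi / Real.log T) / H ≤ ε / 6 := by
    rw [div_le_iff₀ hH0]
    have h6 := mul_le_mul_of_nonneg_left hH (show 0 ≤ ε / 6 by linarith)
    have e : ε / 6 * (6 / ε) = 1 := by field_simp
    linarith
  linarith

/-- the data for zeta in the whole range -/
lemma zeta_data (ε : ℝ) (hε : 0 < ε) (hε1 : ε ≤ 3 / 2) :
    ∃ T₀ : ℝ, 10 ≤ T₀ ∧ ∀ T : ℝ, T₀ ≤ T → 6 / ε ≤ T ∧ 2 * Real.pi ≤ Real.log T ∧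
      ∃ S : Finset ℝ, (∀ x ∈ S, IsSimpleOrd riemannZeta 0 T x) ∧ ∀ r : ℝ, 0 < r → r ≤ 9 / 10 →
      r * (2 - cMT⁻¹ - ε / 3) * T ≤
        (volume (Pool.Agent.W201.UU (r * (2 * Real.pi / Real.log T) / 2) S)).toReal := by
  have hpi := Real.pi_pos
  rw [cMT_inv]
  obtain ⟨T₁, hT₁, h⟩ := Pool.Agent.TH300.ZS.nbhd_full (ε := ε / 3) (by linarith) (by linarith)
  refine ⟨max T₁ (max 10 (Real.exp (2 * Real.pi) + 6 / ε)),
    (le_max_left _ _).trans (le_max_right _ _), fun T hT => ?_⟩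
  have hTT1 : T₁ ≤ T := (le_max_left _ _).trans hT
  have hT10 : 10 ≤ T := ((le_max_left _ _).trans (le_max_right _ _)).trans hT
  have hTe : Real.exp (2 * Real.pi) + 6 / ε ≤ T := ((le_max_right _ _).trans (le_max_right _ _)).trans hT
  have hexp := Real.exp_pos (2 * Real.pi)
  have h6ε : 0 < 6 / ε := by positivity
  have hlog1 : 2 * Real.pi ≤ Real.log T := by
    rw [Real.le_log_iff_exp_le (by linarith)]
    linarith
  obtain ⟨S, hS⟩ := Pool.Agent.TH300.ZS.isAF_exists T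
  refine ⟨by linarith, hlog1, S, fun x hx => ?_, h T hTT1 S hS⟩
  obtain ⟨a3, a4⟩ := (hS x).mp hx
  rw [mul_comm] at a3 a4
  exact ⟨by rw [zeros_eq]; exact a3, a4⟩

lemma scale_le {T r : ℝ} (hr0 : 0 < r) (hr1 : r ≤ 9 / 10) (hlog1 : 2 * Real.pi ≤ Real.log T) :
    r * (2 * Real.pi / Real.log T) ≤ 1 := by
  have hpi := Real.pi_pos
  have hlog : 0 < Real.log T := by linarith
  have : 2 * Real.pi / Real.log T ≤ 1 := by rw [div_le_one hlog]; exact hlog1
  have h0 : 0 ≤ 2 * Real.pi / Real.log T := by positivity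
  nlinarith

/-- The inequality for zeta in the whole range. -/
lemma zeta_full (ε : ℝ) (hε : 0 < ε) (hε1 : ε ≤ 3 / 2) :
    ∃ κ : ℝ, 0 < κ ∧ ∃ T₀ : ℝ, 10 ≤ T₀ ∧ ∀ T : ℝ, T₀ ≤ T → ∀ r : ℝ, 0 < r → r ≤ 9 / 10 →
      ∀ (k m n : ℕ) (a : Fin m → ℝ), (∀ i, 0 ≤ a i ∧ a i ≤ κ * (T * Real.log T)) →
        (n.choose k * m * (2 - cMT⁻¹ - ε) - k * (n + 1).choose (k + 1) / r) *
          (T / (2 * Real.pi) * Real.log T) ≤
          ∑ I ∈ Finset.powersetCard (k + 1) (Finset.univ : Finset (Fin m)),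
            (P riemannZeta T 0 T r a I : ℝ) := by
  have hpi := Real.pi_pos
  have hcg := H344.cMTinv_ge
  obtain ⟨T₀, hT₀, h⟩ := zeta_data ε hε hε1
  refine ⟨ε / (6 * (2 * Real.pi)), by positivity, T₀, hT₀, fun T hT r hr0 hr1 k m n a ha => ?_⟩
  obtain ⟨h1, h2, S, hS, hU⟩ := h T hT
  have hT10 : 10 ≤ T := hT₀.trans hT
  have h3 := core (F := riemannZeta) (τ := T) (T₁ := 0) (H := T) (p := 2 - cMT⁻¹) (ε := ε)
    (κ := ε / (6 * (2 * Real.pi))) (r := r) (by rw [zero_add]; exact zeros_finite_zeta T)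
    (by linarith) (by linarith) hr0 (by rw [cMT_inv]; linarith) hε (by positivity) S
    (by rw [zero_add]; exact hS) (hU r hr0 hr1)
    (hκ_aux hε (by linarith) h1 (by linarith) (scale_le hr0 hr1 h2)) a ha k n
  simp only [zero_add] at h3
  exact h3

/-- The inequality in short intervals. -/
lemma short {q : ℕ} [NeZero q] (χ : DirichletCharacter ℂ q) (hχ : χ.IsPrimitive)
    (h ε : ℝ) (hh : 0 < h) (hh1 : h ≤ 1) (hε : 0 < ε) :
    ∃ κ : ℝ, 0 < κ ∧ ∃ T₀ : ℝ, 10 ≤ T₀ ∧ ∀ T : ℝ, T₀ ≤ T → ∀ H : ℝ, T ^ h ≤ H → H ≤ T →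
      ∀ r : ℝ, 0 < r → h * r ≤ 9 / 10 →
      ∀ (k m n : ℕ) (a : Fin m → ℝ), (∀ i, 0 ≤ a i ∧ a i ≤ κ * (H * Real.log T)) →
        (n.choose k * m * (2 - c h - ε) - k * (n + 1).choose (k + 1) / r) *
          (H / (2 * Real.pi) * Real.log T) ≤
          ∑ I ∈ Finset.powersetCard (k + 1) (Finset.univ : Finset (Fin m)),
            (P (DirichletCharacter.LFunction χ) T T (T + H) r a I : ℝ) := by
  have hpi := Real.pi_pos
  have hc0 := c_nonneg hh hh1
  obtain ⟨T₁, hT₁, h1⟩ := Pool.Agent.TH300.ZS.nbhd_asym (H370.good_dirichlet χ hχ) hh hh1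
    (show 0 < ε / 3 by linarith)
  rw [← c_eq hh] at h1
  have htop : Tendsto (fun T : ℝ => T ^ h) atTop atTop := tendsto_rpow_atTop hh
  obtain ⟨T₂, hT₂⟩ := (htop.eventually_ge_atTop (6 / ε + 1)).exists_forall_of_atTop
  obtain ⟨T₃, hT₃⟩ := (Real.tendsto_log_atTop.eventually_ge_atTop
    (2 * Real.pi / h)).exists_forall_of_atTop
  refine ⟨ε / (6 * (2 * Real.pi)), by positivity, max (max T₁ T₂) (max T₃ 10),
    (le_max_right _ _).trans (le_max_right _ _), fun T hTT H hH hHT r hr0 hr1 k m n a ha => ?_⟩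
  have hTT1 : T₁ ≤ T := ((le_max_left _ _).trans (le_max_left _ _)).trans hTT
  have hTT2 := hT₂ T (((le_max_right _ _).trans (le_max_left _ _)).trans hTT)
  have hTT3 := hT₃ T (((le_max_left _ _).trans (le_max_right _ _)).trans hTT)
  have hT10 : 10 ≤ T := ((le_max_right _ _).trans (le_max_right _ _)).trans hTT
  have h6ε : 0 < 6 / ε := by positivity
  have hH0 : 6 / ε ≤ H := by linarith
  have hHpos : 0 < H := by linarith
  have hlog : 0 < Real.log T := by
    have : 0 < 2 * Real.pi / h := by positivity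
    linarith
  obtain ⟨S, hS, hSU⟩ := h1 T hTT1 H hH hHT
  have hSo : ∀ x ∈ S, IsSimpleOrd (DirichletCharacter.LFunction χ) T (T + H) x := by
    intro x hx
    obtain ⟨a1, a2, a3, a4⟩ := hS x hx
    rw [mul_comm] at a3 a4
    exact ⟨by rw [zeros_eq]; exact a3, a4⟩
  refine core (F := DirichletCharacter.LFunction χ) (τ := T) (T₁ := T) (H := H)
    (p := 2 - c h) (ε := ε) (κ := ε / (6 * (2 * Real.pi))) (r := r)
    (zeros_finite χ hχ T (T + H) (by linarith)) (by linarith) hHpos hr0 (by linarith) hε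
    (by positivity) S hSo (hSU r hr0 hr1) ?_ a ha k n
  apply hκ_aux hε (by linarith) hH0 hHpos
  have h5 : 2 * Real.pi / Real.log T ≤ h := by
    rw [div_le_iff₀ hlog]
    rw [div_le_iff₀ hh] at hTT3
    linarith
  have h6 : r * (2 * Real.pi / Real.log T) ≤ r * h := mul_le_mul_of_nonneg_left h5 hr0.le
  linarith

/-- the families of a set `I` of `k + 1` indices are counted by `N_{k+1}(T; B)` -/
lemma P_le_Nk {T r : ℝ} {k m : ℕ} (a : Fin m → ℝ) (hsep : ∀ i j, i ≠ j → r ≤ |a i - a j|)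
    {I : Finset (Fin m)} (hI : I.card = k + 1) : ∃ ι : Fin (k + 1) → Fin m, StrictMono ι ∧
      P riemannZeta T 0 T r a I ≤
        Nk k T (fun l => a (ι l.castSucc) - a (ι (Fin.last k)) - r)
          (fun l => a (ι l.castSucc) - a (ι (Fin.last k)) + r) := by
  classical
  set ι : Fin (k + 1) → Fin m := fun l => I.orderEmbOfFin hI l with hι
  have hιI : ∀ l, ι l ∈ I := fun l => I.orderEmbOfFin_mem hI l
  have hιmono : StrictMono ι := (I.orderEmbOfFin hI).strictMono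
  have hιsurj : ∀ i ∈ I, ∃ l, ι l = i := by
    intro i hi
    have h1 : Set.range (I.orderEmbOfFin hI) = I := Finset.range_orderEmbOfFin I hI
    have h2 : i ∈ Set.range (I.orderEmbOfFin hI) := by rw [h1]; exact hi
    exact h2
  refine ⟨ι, hιmono, ?_⟩
  set Y : Set (I → ℝ) := {x : I → ℝ | (∀ i, IsSimpleOrd riemannZeta 0 T (x i)) ∧
    ∀ i j : I, |(x i - x j) * Real.log T / (2 * Real.pi) - (a i - a j)| < r} with hY
  set g : (I → ℝ) → (Fin (k + 1) → ℝ) := fun x l => x ⟨ι l, hιI l⟩ with hg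
  have hginj : Function.Injective g := by
    intro x y h
    funext i
    obtain ⟨l, hl⟩ := hιsurj i.1 i.2
    have h1 := congrFun h l
    simp only [hg] at h1
    have e : (⟨ι l, hιI l⟩ : I) = i := Subtype.ext hl
    rw [e] at h1
    exact h1
  have hP : P riemannZeta T 0 T r a I = (g '' Y).ncard := by
    rw [Set.ncard_image_of_injective Y hginj]
    rfl
  rw [hP]
  apply Nk_ge
  rintro _ ⟨x, ⟨hx1, hx2⟩, rfl⟩
  refine ⟨?_, fun l => hx1 _, fun l => ?_⟩
  · intro l l' hll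
    by_contra hne
    have h1 := hx2 ⟨ι l, hιI l⟩ ⟨ι l', hιI l'⟩
    simp only [hg] at hll
    rw [hll, sub_self, zero_mul, zero_div, zero_sub, abs_neg] at h1
    have h2 := hsep (ι l) (ι l') (fun h => hne (hιmono.injective h))
    linarith
  · have h1 := abs_lt.mp (hx2 ⟨ι l.castSucc, hιI _⟩ ⟨ι (Fin.last k), hιI _⟩)
    simp only [hg]
    rw [mul_div_assoc] at h1
    exact ⟨by linarith [h1.1], by linarith [h1.2]⟩

/-- patterns -/
lemma patterns (k m : ℕ) (r : ℝ) (hr0 : 0 < r) (hr1 : r ≤ 9 / 10)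
    (hm : (k : ℝ) < m * r * (2 - cMT⁻¹)) :
    ∃ c₀ : ℝ, 0 < c₀ ∧ ∃ κ : ℝ, 0 < κ ∧ ∃ T₀ : ℝ, ∀ T : ℝ, T₀ ≤ T → ∀ a : Fin m → ℝ,
      (∀ i, 0 ≤ a i ∧ a i ≤ κ * (T * Real.log T)) → (∀ i j, i ≠ j → r ≤ |a i - a j|) →
      ∃ ι : Fin (k + 1) → Fin m, StrictMono ι ∧
        c₀ * (T / (2 * Real.pi) * Real.log T) ≤
        (Nk k T (fun l => a (ι l.castSucc) - a (ι (Fin.last k)) - r)
          (fun l => a (ι l.castSucc) - a (ι (Fin.last k)) + r) : ℝ) := by
  classical
  have hpi := Real.pi_pos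
  have hcn := H370.Expl.cMTinv_num
  have hcg := H344.cMTinv_ge
  rw [cMT_inv] at hm
  set p : ℝ := 2 - H370.cMTinv with hp
  have hp0 : 0 < p := by rw [hp]; norm_num at hcn; linarith
  have hk0 : (0 : ℝ) ≤ k := Nat.cast_nonneg k
  have hm0 : (0 : ℝ) < m := by
    by_contra hc
    push Not at hc
    have h1 : (m : ℝ) * r * p ≤ 0 := mul_nonpos_of_nonpos_of_nonneg
      (mul_nonpos_of_nonpos_of_nonneg hc hr0.le) hp0.le
    linarith
  have hg0 : 0 < p - k / (m * r) := by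
    rw [sub_pos, div_lt_iff₀ (by positivity)]
    linarith
  set ε : ℝ := (p - k / (m * r)) / 2 with hε
  have hε0 : 0 < ε := by rw [hε]; linarith
  have hε1 : ε ≤ 3 / 2 := by
    have : 0 ≤ (k : ℝ) / (m * r) := by positivity
    rw [hε, hp]; linarith
  obtain ⟨κ, hκ, T₀, hT₀, h⟩ := zeta_full ε hε0 hε1
  set C : ℝ := (m : ℝ) * ε with hC
  have hC0 : 0 < C := by positivity
  set B : ℝ := ((m.choose (k + 1) : ℕ) : ℝ) + 1 with hB
  have hB0 : 0 < B := by positivity
  refine ⟨C / B, by positivity, κ, hκ, T₀, fun T hT a ha hsep => ?_⟩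
  have hlog : 0 < Real.log T := Real.log_pos (by linarith)
  have hM : 0 < T / (2 * Real.pi) * Real.log T := by
    have : 0 < T := by linarith
    positivity
  have h1 := h T hT r hr0 hr1 k m k a ha
  rw [Nat.choose_self, Nat.choose_self, cMT_inv] at h1
  have h2 : C * (T / (2 * Real.pi) * Real.log T) ≤
      ∑ I ∈ Finset.powersetCard (k + 1) (Finset.univ : Finset (Fin m)),
        (P riemannZeta T 0 T r a I : ℝ) := by
    refine le_trans (mul_le_mul_of_nonneg_right (le_of_eq ?_) hM.le) h1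
    rw [hC]
    have e1 : (p - k / (m * r)) / 2 = p - ε - k / (m * r) := by rw [hε]; ring
    have e2 : ε = p - ε - k / (m * r) := by rw [← e1]
    have e3 : (m : ℝ) * ε = m * (p - ε) - k / r := by
      rw [e2]
      have : (m : ℝ) * (k / (m * r)) = k / r := by field_simp
      have e4 : (m : ℝ) * (p - ε - k / (m * r)) = m * (p - ε) - m * (k / (m * r)) := by ring
      rw [e4, this, ← e2]
    push_cast
    rw [one_mul, mul_one]
    exact e3
  by_contra hcon
  push Not at hcon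
  have h3 : ∀ I ∈ Finset.powersetCard (k + 1) (Finset.univ : Finset (Fin m)),
      (P riemannZeta T 0 T r a I : ℝ) ≤ C / B * (T / (2 * Real.pi) * Real.log T) := by
    intro I hI
    obtain ⟨ι, hι, h4⟩ := P_le_Nk (T := T) a hsep (Finset.mem_powersetCard.mp hI).2
    have h5 := hcon ι hι
    have h6 : (P riemannZeta T 0 T r a I : ℝ) ≤
        (Nk k T (fun l => a (ι l.castSucc) - a (ι (Fin.last k)) - r)
          (fun l => a (ι l.castSucc) - a (ι (Fin.last k)) + r) : ℝ) := by exact_mod_cast h4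
    linarith
  have h4 := h2.trans (Finset.sum_le_sum h3)
  rw [Finset.sum_const, Finset.card_powersetCard, Finset.card_univ, Fintype.card_fin,
    nsmul_eq_mul] at h4
  have h5 : ((m.choose (k + 1) : ℕ) : ℝ) * (C / B * (T / (2 * Real.pi) * Real.log T)) <
      C * (T / (2 * Real.pi) * Real.log T) := by
    have e : C * (T / (2 * Real.pi) * Real.log T) =
        B * (C / B * (T / (2 * Real.pi) * Real.log T)) := by field_simp
    rw [e]
    apply mul_lt_mul_of_pos_right _ (by positivity)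
    rw [hB]; linarith
  linarith

/-- **Patterns of zeros near subsets of every set of numbers.** -/
theorem result :
    -- among `m > k / (p r)` numbers there are `k + 1` which are differences of zeros, up to `r`
    (∀ (k m : ℕ) (r : ℝ), 0 < r → r ≤ 9 / 10 → (k : ℝ) < m * r * (2 - cMT⁻¹) →
      ∃ c₀ : ℝ, 0 < c₀ ∧ ∃ κ : ℝ, 0 < κ ∧ ∃ T₀ : ℝ, ∀ T : ℝ, T₀ ≤ T → ∀ a : Fin m → ℝ,
        (∀ i, 0 ≤ a i ∧ a i ≤ κ * (T * Real.log T)) → (∀ i j, i ≠ j → r ≤ |a i - a j|) →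
        ∃ ι : Fin (k + 1) → Fin m, StrictMono ι ∧
          c₀ * (T / (2 * Real.pi) * Real.log T) ≤
          (Nk k T (fun l => a (ι l.castSucc) - a (ι (Fin.last k)) - r)
            (fun l => a (ι l.castSucc) - a (ι (Fin.last k)) + r) : ℝ)) ∧
    -- the inequality for zeta
    (∀ ε : ℝ, 0 < ε → ε ≤ 1 → ∃ κ : ℝ, 0 < κ ∧ ∃ T₀ : ℝ, ∀ T : ℝ, T₀ ≤ T →
      ∀ r : ℝ, 0 < r → r ≤ 9 / 10 →
      ∀ (k m n : ℕ) (a : Fin m → ℝ), (∀ i, 0 ≤ a i ∧ a i ≤ κ * (T * Real.log T)) →
        (n.choose k * m * (2 - cMT⁻¹ - ε) - k * (n + 1).choose (k + 1) / r) *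
          (T / (2 * Real.pi) * Real.log T) ≤
          ∑ I ∈ Finset.powersetCard (k + 1) (Finset.univ : Finset (Fin m)),
            (P riemannZeta T 0 T r a I : ℝ)) ∧
    -- the inequality for the L-functions, in short intervals
    (∀ (q : ℕ) [NeZero q] (χ : DirichletCharacter ℂ q), χ.IsPrimitive →
      ∀ h ε : ℝ, 0 < h → h ≤ 1 → 0 < ε → ∃ κ : ℝ, 0 < κ ∧ ∃ T₀ : ℝ, ∀ T : ℝ, T₀ ≤ T →
      ∀ H : ℝ, T ^ h ≤ H → H ≤ T → ∀ r : ℝ, 0 < r → h * r ≤ 9 / 10 →
      ∀ (k m n : ℕ) (a : Fin m → ℝ), (∀ i, 0 ≤ a i ∧ a i ≤ κ * (H * Real.log T)) →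
        (n.choose k * m * (2 - c h - ε) - k * (n + 1).choose (k + 1) / r) *
          (H / (2 * Real.pi) * Real.log T) ≤
          ∑ I ∈ Finset.powersetCard (k + 1) (Finset.univ : Finset (Fin m)),
            (P (DirichletCharacter.LFunction χ) T T (T + H) r a I : ℝ)) := by
  refine ⟨patterns, ?_, ?_⟩
  · intro ε hε hε1
    obtain ⟨κ, hκ, T₀, -, h⟩ := zeta_full ε hε (by linarith)
    exact ⟨κ, hκ, T₀, h⟩
  · intro q _ χ hχ h ε hh hh1 hε
    obtain ⟨κ, hκ, T₀, -, h1⟩ := short χ hχ h ε hh hh1 hε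
    exact ⟨κ, hκ, T₀, h1⟩

end Pool.Agent.Results.MP_67227b_nt.PatternsInTranslates
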