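import Pool.Agent.TH300.ZS.Full
import Pool.Agent.TH300.ZS.Ap

/-!
# Three zeros in approximate arithmetic progression, unconditionally

No hypothesis is assumed.  For every `r > 0` there is `D` such that for every `s` (with
`r ≤ s ≤ κ T log T`) there is a `d ≤ D` such that `N_3(T; B) ≫ T log T` for the box `B` of half side
`r` around `(2 d s, d s)`: for a positive proportion of the zeros of zeta in `(0, T]` there are two
further zeros which form with it, up to `r` mean spacings, an arithmetic progression of difference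
`d s` mean spacings.  The same is proved for the primitive Dirichlet L-functions in the intervals
`(T, T + H]`, `T ^ h ≤ H ≤ T`, if `c(h) < 2`.

Idea of the proof.  By the trace inequality with the Montgomery-Taylor kernel and tridiagonal test
matrices, the union `U` of the intervals of length `r` mean spacings centred at the simple critical
zeros has positive density.  For many `t` the set of the `i < m` with `t ∈ U + i s` has positive
density in `{0, …, m - 1}`, and Roth's theorem applies to it.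
-/

open Filter Topology Complex MeasureTheory

namespace Pool.Agent.Results.MP_67227b_nt.ZeroProgressions

/-- the nontrivial zeros of `F` with ordinate in `(T₁, T₂]` -/
def zeros (F : ℂ → ℂ) (T₁ T₂ : ℝ) : Set ℂ :=
  {s : ℂ | F s = 0 ∧ 0 < s.re ∧ s.re < 1 ∧ T₁ < s.im ∧ s.im ≤ T₂}

/-- the multiplicity of a zero -/
noncomputable def mult (F : ℂ → ℂ) (s : ℂ) : ℕ := analyticOrderNatAt F s

/-- `x` is the ordinate in `(T₁, T₂]` of a simple zero of `F` on the critical line -/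
def IsSimpleOrd (F : ℂ → ℂ) (T₁ T₂ x : ℝ) : Prop :=
  (1 / 2 + x * I : ℂ) ∈ zeros F T₁ T₂ ∧ mult F (1 / 2 + x * I : ℂ) = 1

/-- the number of the triples `(x, y, z)` of ordinates in `(T₁, T₂]` of simple zeros of `F` on the
critical line such that, in units of `2π / log τ`, the differences `x - y` and `y - z` are within `r`
of `s`, and `x - z` is within `r` of `2 s` -/
noncomputable def A3 (F : ℂ → ℂ) (τ T₁ T₂ r s : ℝ) : ℕ :=
  {p : ℝ × ℝ × ℝ | (IsSimpleOrd F T₁ T₂ p.1 ∧ IsSimpleOrd F T₁ T₂ p.2.1 ∧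
      IsSimpleOrd F T₁ T₂ p.2.2) ∧
    |(p.1 - p.2.2) * Real.log τ / (2 * Real.pi) - 2 * s| < r ∧
    |(p.2.1 - p.2.2) * Real.log τ / (2 * Real.pi) - s| < r ∧
    |(p.1 - p.2.1) * Real.log τ / (2 * Real.pi) - s| < r}.ncard

/-- the number of nontrivial zeros of `ζ` with ordinate in `(0, t]`, with multiplicity -/
noncomputable def NZ (t : ℝ) : ℕ := ∑ᶠ s ∈ zeros riemannZeta 0 t, mult riemannZeta s

/-- for `n ≥ 1`: the `n`-th positive ordinate `γ n` of a nontrivial zero of `ζ`, the ordinates being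
listed in nondecreasing order and repeated according to multiplicity -/
noncomputable def γ (n : ℕ) : ℝ := sInf {t : ℝ | n ≤ NZ t}

/-- `N_{k+1}(T; B)` with `B = ∏ [α_l, β_l]`, `l < k`: the number of `(k+1)`-tuples of pairwise
distinct indices with ordinates at most `T` whose normalised differences with the last ordinate
lie in the box `B` -/
noncomputable def Nk (k : ℕ) (T : ℝ) (α β : Fin k → ℝ) : ℕ :=
  {j : Fin (k + 1) → ℕ | Function.Injective j ∧ (∀ i, 1 ≤ j i ∧ γ (j i) ≤ T) ∧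
    ∀ i : Fin k, (γ (j i.castSucc) - γ (j (Fin.last k))) * (Real.log T / (2 * Real.pi)) ∈
      Set.Icc (α i) (β i)}.ncard

/-- the Montgomery-Taylor constant -/
noncomputable def cMT : ℝ :=
  Real.sqrt 2 * Real.tan (1 / Real.sqrt 2) / (1 + Real.tan (1 / Real.sqrt 2) / Real.sqrt 2)

/-- the mean square of the Montgomery-Taylor window, `1.0062...` -/
noncomputable def R0 : ℝ :=
  (1 + Real.sin (Real.sqrt 2) / Real.sqrt 2) / (4 * Real.sin (1 / Real.sqrt 2) ^ 2)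

/-- the constant for intervals of length `T^h`; `c 1 = cMT⁻¹ = 1.3274...` -/
noncomputable def c (h : ℝ) : ℝ := R0 / h + h * (cMT⁻¹ - R0)

lemma zeros_eq (F : ℂ → ℂ) (T₁ T₂ : ℝ) : zeros F T₁ T₂ = H370.zset F T₁ T₂ := by
  ext s
  simp only [zeros, H370.zset, Set.mem_ofPred_eq]
  tauto

/-- modulus `1`: the Riemann zeta function -/
theorem zeta_case (χ : DirichletCharacter ℂ 1) :
    χ.IsPrimitive ∧ DirichletCharacter.LFunction χ = riemannZeta := by
  refine ⟨?_, DirichletCharacter.LFunction_modOne_eq⟩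
  rw [DirichletCharacter.level_one' χ rfl]
  exact DirichletCharacter.isPrimitive_one_level_one

/-- the sets of zeros of zeta are finite -/
theorem zeros_finite_zeta (T : ℝ) : (zeros riemannZeta 0 T).Finite := by
  rw [zeros_eq]
  exact H370.zeta_zeros_finite T

/-- the sets of zeros of the L-functions are finite -/
theorem zeros_finite {q : ℕ} [NeZero q] (χ : DirichletCharacter ℂ q) (hχ : χ.IsPrimitive)
    (T₁ T₂ : ℝ) (hT : 1 ≤ T₁) : (zeros (DirichletCharacter.LFunction χ) T₁ T₂).Finite := by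
  rw [zeros_eq]
  exact H370.zset_finite (H370.good_dirichlet χ hχ) T₁ T₂ hT

theorem cMT_inv : cMT⁻¹ = H370.cMTinv := H370.cMTinv_eq

theorem c_eq {h : ℝ} (hh : 0 < h) : c h = H295Iso.c0 h := by
  have h1 : cMT⁻¹ = H370.cMTinv := H370.cMTinv_eq
  have h2 := H228SI.constS 1 one_pos le_rfl
  have h4 : Real.sqrt 2 / 2 = 1 / Real.sqrt 2 := by
    rw [div_eq_div_iff (by norm_num) (by positivity), Real.mul_self_sqrt (by norm_num), one_mul]
  have h3 : H295SI.RS (Real.sqrt 2) 0 = R0 := by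
    unfold H295SI.RS R0
    have hs : Real.sqrt 2 ^ 2 = 2 := Real.sq_sqrt (by norm_num)
    rw [if_pos (by norm_num), hs, h4]
    simp only [abs_zero, sub_zero, mul_zero, Real.cos_zero, mul_one]
    ring
  have h5 : H295SI.cc 1 = H370.cMTinv := by
    unfold H295SI.cc H370.cMTinv
    rfl
  rw [mul_one, h5] at h2
  unfold c H295Iso.c0 H295SI.cR
  unfold H295SI.cR at h2
  rw [h3] at h2 ⊢
  rw [h1, ← h2]
  ring

lemma c_nonneg {h : ℝ} (hh : 0 < h) (hh1 : h ≤ 1) : 0 ≤ c h := by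
  have h1 : cMT⁻¹ = H370.cMTinv := H370.cMTinv_eq
  have h2 := H344.cMTinv_ge
  have hs : 0 ≤ Real.sin (Real.sqrt 2) := by
    apply Real.sin_nonneg_of_nonneg_of_le_pi (Real.sqrt_nonneg _)
    have : Real.sqrt 2 ≤ 2 := by
      rw [Real.sqrt_le_left (by norm_num)]; norm_num
    linarith [Real.pi_gt_three]
  have hR : 0 ≤ R0 := by unfold R0; positivity
  have e : c h = R0 * (1 / h - h) + h * cMT⁻¹ := by unfold c; ring
  rw [e, h1]
  have h3 : h ≤ 1 / h := by
    rw [le_div_iff₀ hh]; nlinarith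
  have h4 : 0 ≤ R0 * (1 / h - h) := mul_nonneg hR (by linarith)
  have h5 : 0 ≤ h * H370.cMTinv := mul_nonneg hh.le (by linarith)
  linarith

lemma ord_finite {F : ℂ → ℂ} {T₁ T₂ : ℝ} (hfin : (zeros F T₁ T₂).Finite) :
    {x : ℝ | IsSimpleOrd F T₁ T₂ x}.Finite := by
  refine Set.Finite.of_finite_image (f := fun x : ℝ => (1 / 2 + x * I : ℂ))
    (hfin.subset ?_) ?_
  · rintro s ⟨x, hx, rfl⟩
    exact hx.1
  · intro x _ y _ hxy
    have := congrArg Complex.im hxy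
    simpa using this


/-! ### The list of the ordinates -/

lemma NZ_eq (t : ℝ) : NZ t = ∑ s ∈ (zeros_finite_zeta t).toFinset, mult riemannZeta s :=
  finsum_mem_eq_finite_toFinset_sum _ (zeros_finite_zeta t)

lemma mult_pos {s : ℂ} (hs : 0 < s.im) (h0 : riemannZeta s = 0) : 1 ≤ mult riemannZeta s :=
  H370.Loc.mult_pos' H370.good_zeta hs h0

lemma NZ_add_le (t' t : ℝ) (h : t' ≤ t) (A : Finset ℂ)
    (hA : ∀ s ∈ A, s ∈ zeros riemannZeta 0 t ∧ t' < s.im) :
    NZ t' + ∑ s ∈ A, mult riemannZeta s ≤ NZ t := by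
  classical
  rw [NZ_eq, NZ_eq, ← Finset.sum_union]
  · apply Finset.sum_le_sum_of_subset
    intro s hs
    rcases Finset.mem_union.mp hs with hs | hs
    · rw [Set.Finite.mem_toFinset] at hs ⊢
      exact ⟨hs.1, hs.2.1, hs.2.2.1, hs.2.2.2.1, hs.2.2.2.2.trans h⟩
    · rw [Set.Finite.mem_toFinset]
      exact (hA s hs).1
  · rw [Finset.disjoint_left]
    intro s hs hs'
    rw [Set.Finite.mem_toFinset] at hs
    exact absurd hs.2.2.2.2 (not_le.mpr (hA s hs').2)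

lemma NZ_mono : Monotone NZ := by
  intro a b h
  have := NZ_add_le a b h ∅ (by simp)
  simpa using this

lemma NZ_lt {t x : ℝ} (h : t < x) (hx : IsSimpleOrd riemannZeta 0 x x) : NZ t < NZ x := by
  have him : (1 / 2 + (x : ℂ) * I).im = x := by simp
  have h1 := NZ_add_le t x h.le {(1 / 2 + (x : ℂ) * I)} (by
    intro z hz
    rw [Finset.mem_singleton] at hz
    subst hz
    exact ⟨hx.1, by rw [him]; exact h⟩)
  rw [Finset.sum_singleton, hx.2] at h1
  omega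

lemma ord_self {T₁ T x : ℝ} (hT : 0 ≤ T₁) (hx : IsSimpleOrd riemannZeta T₁ T x) :
    IsSimpleOrd riemannZeta 0 x x := by
  have him : (1 / 2 + (x : ℂ) * I).im = x := by simp
  refine ⟨⟨hx.1.1, hx.1.2.1, hx.1.2.2.1, lt_of_le_of_lt hT hx.1.2.2.2.1, ?_⟩, hx.2⟩
  rw [him]

lemma ord_bd {F : ℂ → ℂ} {T₁ T₂ x : ℝ} (hx : IsSimpleOrd F T₁ T₂ x) : T₁ < x ∧ x ≤ T₂ := by
  have him : (1 / 2 + (x : ℂ) * I).im = x := by simp
  have := hx.1.2.2.2
  rw [him] at this
  exact this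

lemma γ_NZ {x : ℝ} (hx : IsSimpleOrd riemannZeta 0 x x) : γ (NZ x) = x := by
  have : IsLeast {t : ℝ | NZ x ≤ NZ t} x := by
    refine ⟨show NZ x ≤ NZ x from le_rfl, fun t ht => ?_⟩
    by_contra hcon
    push Not at hcon
    exact absurd ht (not_le.mpr (NZ_lt hcon hx))
  exact this.csInf_eq

lemma NZ_pos {x : ℝ} (hx : IsSimpleOrd riemannZeta 0 x x) : 1 ≤ NZ x := by
  have h1 := NZ_lt (ord_bd hx).1 hx
  omega

lemma NZ_unbounded (n : ℕ) : ∃ t : ℝ, n ≤ NZ t := by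
  obtain ⟨T₀, hT₀, h⟩ := Pool.Agent.TH300.ZS.nbhd_full (ε := 1 / 10) (by norm_num) (by norm_num)
  have hcn := H370.Expl.cMTinv_num
  -- there are simple ordinates above every bound
  have habove : ∀ B : ℝ, ∃ x, B < x ∧ IsSimpleOrd riemannZeta 0 x x := by
    intro B
    by_contra hcon
    push Not at hcon
    set T := max T₀ (100 * (|B| + 10)) with hT
    have hTB : 100 * (|B| + 10) ≤ T := le_max_right _ _
    have hB0 := abs_nonneg B
    have hBB := le_abs_self B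
    have hT0 : 0 < T := by linarith
    obtain ⟨S, hS⟩ := Pool.Agent.TH300.ZS.isAF_exists T
    have hlog : 1 ≤ Real.log T := by
      rw [Real.le_log_iff_exp_le hT0]
      have := Real.exp_one_lt_d9
      linarith
    have h1 := h T (le_max_left _ _) S hS (1 / 10) (by norm_num) (by norm_num)
    have hSB : ∀ x ∈ S, 0 ≤ x ∧ x ≤ |B| := by
      intro x hx
      obtain ⟨a3, a4⟩ := (hS x).mp hx
      rw [mul_comm] at a3 a4
      have hx1 : IsSimpleOrd riemannZeta 0 T x := ⟨by rw [zeros_eq]; exact a3, a4⟩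
      refine ⟨(ord_bd hx1).1.le, ?_⟩
      by_contra hc
      push Not at hc
      exact hcon x (by linarith) (ord_self le_rfl hx1)
    have h2 := Pool.Agent.W201.UU_sub (r := 1 / 10 * (2 * Real.pi / Real.log T) / 2) hSB
    have h3 := ENNReal.toReal_mono (by rw [Real.volume_Ioo]; exact ENNReal.ofReal_ne_top)
      (measure_mono (μ := volume) h2)
    have hpi := Real.pi_lt_four
    have hpi0 := Real.pi_pos
    have h4 : 2 * Real.pi / Real.log T ≤ 8 := by
      rw [div_le_iff₀ (by linarith)]; nlinarith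
    have h40 : 0 < 2 * Real.pi / Real.log T := by positivity
    rw [Real.volume_Ioo, ENNReal.toReal_ofReal (by linarith)] at h3
    norm_num at hcn
    nlinarith
  induction n with
  | zero => exact ⟨0, Nat.zero_le _⟩
  | succ n ih =>
    obtain ⟨t, ht⟩ := ih
    obtain ⟨x, hx1, hx2⟩ := habove t
    have := NZ_lt hx1 hx2
    exact ⟨x, by omega⟩

lemma le_of_γ_le {n : ℕ} {T : ℝ} (h : γ n ≤ T) : n ≤ NZ (T + 1) := by
  by_contra hcon
  push Not at hcon
  have h1 : T + 1 ≤ γ n := by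
    obtain ⟨t, ht⟩ := NZ_unbounded n
    refine le_csInf ⟨t, ht⟩ fun u hu => ?_
    by_contra hc
    push Not at hc
    have h2 : n ≤ NZ u := hu
    have h3 := NZ_mono hc.le
    omega
  linarith

/-- the set counted by `N_{k+1}(T; B)` is finite -/
lemma Nk_finite (k : ℕ) (T : ℝ) (α β : Fin k → ℝ) :
    {j : Fin (k + 1) → ℕ | Function.Injective j ∧ (∀ i, 1 ≤ j i ∧ γ (j i) ≤ T) ∧
    ∀ i : Fin k, (γ (j i.castSucc) - γ (j (Fin.last k))) * (Real.log T / (2 * Real.pi)) ∈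
      Set.Icc (α i) (β i)}.Finite := by
  refine (Set.Finite.pi (fun _ : Fin (k + 1) => Set.finite_Iic (NZ (T + 1)))).subset ?_
  rintro j ⟨-, h2, -⟩
  rw [Set.mem_pi]
  intro i _
  exact le_of_γ_le (h2 i).2

/-- from families of simple ordinates to `N_{k+1}(T; B)` -/
lemma Nk_ge {k : ℕ} {T : ℝ} (α β : Fin k → ℝ) {X : Set (Fin (k + 1) → ℝ)} (hX :
    ∀ x ∈ X, Function.Injective x ∧ (∀ i, IsSimpleOrd riemannZeta 0 T (x i)) ∧
      ∀ i : Fin k, (x i.castSucc - x (Fin.last k)) * (Real.log T / (2 * Real.pi)) ∈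
        Set.Icc (α i) (β i)) : X.ncard ≤ Nk k T α β := by
  have hinj : ∀ x y : ℝ, IsSimpleOrd riemannZeta 0 T x → IsSimpleOrd riemannZeta 0 T y →
      NZ x = NZ y → x = y := by
    intro x y hx hy h
    rw [← γ_NZ (ord_self le_rfl hx), ← γ_NZ (ord_self le_rfl hy), h]
  unfold Nk
  refine Set.ncard_le_ncard_of_injOn (fun x i => NZ (x i)) ?_ ?_ (Nk_finite k T α β)
  · intro x hx
    obtain ⟨h1, h2, h3⟩ := hX x hx
    have hγ : ∀ i, γ (NZ (x i)) = x i := fun i => γ_NZ (ord_self le_rfl (h2 i))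
    refine ⟨fun i j hij => h1 (hinj _ _ (h2 i) (h2 j) hij), fun i => ⟨NZ_pos (ord_self le_rfl (h2 i)),
      by rw [hγ]; exact (ord_bd (h2 i)).2⟩, fun i => ?_⟩
    rw [hγ, hγ]
    exact h3 i
  · intro x hx y hy hxy
    funext i
    exact hinj _ _ ((hX x hx).2.1 i) ((hX y hy).2.1 i) (congrFun hxy i)

/-- the data for zeta in the whole range -/
lemma zeta_data (ε : ℝ) (hε : 0 < ε) (hε1 : ε ≤ 3 / 2) :
    ∃ T₀ : ℝ, 10 ≤ T₀ ∧ ∀ T : ℝ, T₀ ≤ T → 6 / ε ≤ T ∧ 2 * Real.pi ≤ Real.log T ∧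
      ∃ S : Finset ℝ, (∀ x ∈ S, IsSimpleOrd riemannZeta 0 T x) ∧ ∀ r : ℝ, 0 < r → r ≤ 9 / 10 →
      r * (2 - cMT⁻¹ - ε / 3) * T ≤
        (volume (Pool.Agent.W201.UU (r * (2 * Real.pi / Real.log T) / 2) S)).toReal := by
  have hpi := Real.pi_pos
  rw [cMT_inv]
  obtain ⟨T₁, hT₁, h⟩ := Pool.Agent.TH300.ZS.nbhd_full (ε := ε / 3) (by linarith) (by linarith)
  refine ⟨max T₁ (max 10 (Real.exp (2 * Real.pi) + 6 / ε)),
    (le_max_left _ _).trans (le_max_right _ _), fun T hT => ?_⟩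
  have hTT1 : T₁ ≤ T := (le_max_left _ _).trans hT
  have hT10 : 10 ≤ T := ((le_max_left _ _).trans (le_max_right _ _)).trans hT
  have hTe : Real.exp (2 * Real.pi) + 6 / ε ≤ T := ((le_max_right _ _).trans (le_max_right _ _)).trans hT
  have hexp := Real.exp_pos (2 * Real.pi)
  have h6ε : 0 < 6 / ε := by positivity
  have hlog1 : 2 * Real.pi ≤ Real.log T := by
    rw [Real.le_log_iff_exp_le (by linarith)]
    linarith
  obtain ⟨S, hS⟩ := Pool.Agent.TH300.ZS.isAF_exists T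
  refine ⟨by linarith, hlog1, S, fun x hx => ?_, h T hTT1 S hS⟩
  obtain ⟨a3, a4⟩ := (hS x).mp hx
  rw [mul_comm] at a3 a4
  exact ⟨by rw [zeros_eq]; exact a3, a4⟩

lemma scale_le {T r : ℝ} (hr0 : 0 < r) (hr1 : r ≤ 9 / 10) (hlog1 : 2 * Real.pi ≤ Real.log T) :
    r * (2 * Real.pi / Real.log T) ≤ 1 := by
  have hpi := Real.pi_pos
  have hlog : 0 < Real.log T := by linarith
  have : 2 * Real.pi / Real.log T ≤ 1 := by rw [div_le_one hlog]; exact hlog1
  have h0 : 0 ≤ 2 * Real.pi / Real.log T := by positivity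
  nlinarith

/-! ### The progressions -/

lemma A3_finite {F : ℂ → ℂ} {T₁ T₂ : ℝ} (hfin : (zeros F T₁ T₂).Finite) (τ r s : ℝ) :
    {p : ℝ × ℝ × ℝ | (IsSimpleOrd F T₁ T₂ p.1 ∧ IsSimpleOrd F T₁ T₂ p.2.1 ∧
      IsSimpleOrd F T₁ T₂ p.2.2) ∧
    |(p.1 - p.2.2) * Real.log τ / (2 * Real.pi) - 2 * s| < r ∧
    |(p.2.1 - p.2.2) * Real.log τ / (2 * Real.pi) - s| < r ∧
    |(p.1 - p.2.1) * Real.log τ / (2 * Real.pi) - s| < r}.Finite :=
  ((ord_finite hfin).prod ((ord_finite hfin).prod (ord_finite hfin))).subset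
    fun _ hp => ⟨hp.1.1, hp.1.2.1, hp.1.2.2⟩

lemma A3_mono {F : ℂ → ℂ} {T₁ T₂ : ℝ} (hfin : (zeros F T₁ T₂).Finite) (τ : ℝ) {r r' : ℝ}
    (hr : r' ≤ r) (s : ℝ) : A3 F τ T₁ T₂ r' s ≤ A3 F τ T₁ T₂ r s := by
  unfold A3
  apply Set.ncard_le_ncard _ (A3_finite hfin τ r s)
  rintro p ⟨h1, h2, h3, h4⟩
  exact ⟨h1, h2.trans_le hr, h3.trans_le hr, h4.trans_le hr⟩

lemma A3_ge {F : ℂ → ℂ} {T₁ T₂ : ℝ} (hfin : (zeros F T₁ T₂).Finite) {τ : ℝ} (hτ : 1 < τ) (r s : ℝ)
    {S : Finset ℝ} (hS : ∀ x ∈ S, IsSimpleOrd F T₁ T₂ x) :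
    Pool.Agent.TH300.ZS.T3 S (s * (2 * Real.pi / Real.log τ)) (r * (2 * Real.pi / Real.log τ)) ≤
      A3 F τ T₁ T₂ r s := by
  classical
  have hpi := Real.pi_pos
  have hlog : 0 < Real.log τ := Real.log_pos hτ
  set σ : ℝ := 2 * Real.pi / Real.log τ with hσ
  have hσ0 : 0 < σ := by positivity
  unfold Pool.Agent.TH300.ZS.T3 A3
  rw [← Set.ncard_coe_finset]
  apply Set.ncard_le_ncard _ (A3_finite hfin τ r s)
  intro p hp
  rw [Finset.mem_coe, Finset.mem_filter, Finset.mem_product, Finset.mem_product] at hp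
  obtain ⟨⟨q1, q2, q3⟩, q4, q5, q6⟩ := hp
  have key : ∀ u v : ℝ, |u - v * σ| < r * σ → |u * Real.log τ / (2 * Real.pi) - v| < r := by
    intro u v h
    have e : u - v * σ = (u * Real.log τ / (2 * Real.pi) - v) * σ := by
      rw [hσ]; field_simp
    rw [e, abs_mul, abs_of_pos hσ0] at h
    exact lt_of_mul_lt_mul_right h hσ0.le
  refine ⟨⟨hS _ q1, hS _ q2, hS _ q3⟩, key _ _ ?_, key _ _ q5, key _ _ q6⟩
  rw [mul_assoc]
  exact q4

/-- the common final step -/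
lemma core {F : ℂ → ℂ} {T₁ T H p r : ℝ} (hfin : (zeros F T₁ (T₁ + H)).Finite) (hT : 1 < T)
    (hH : 0 < H) (hr : 0 < r) (hp : 0 < p) (S : Finset ℝ)
    (hS : ∀ x ∈ S, IsSimpleOrd F T₁ (T₁ + H) x)
    (hU : r * p * H ≤
      (volume (Pool.Agent.W201.UU (r * (2 * Real.pi / Real.log T) / 2) S)).toReal)
    (hrσ : r * (2 * Real.pi / Real.log T) / H ≤ 1 / 2) {s : ℝ} (hs : 0 ≤ s)
    (hsT : s ≤ 1 / (4 * Real.pi * ((cornersTheoremBound (r * p / 4 / 3) + 1 : ℕ) : ℝ)) *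
      (H * Real.log T)) :
    ∃ d : ℕ, 1 ≤ d ∧ d ≤ cornersTheoremBound (r * p / 4 / 3) + 1 ∧
      (r * p / 4) / (r * ((cornersTheoremBound (r * p / 4 / 3) + 1 : ℕ) : ℝ) ^ 2) *
        (H / (2 * Real.pi) * Real.log T) ≤ (A3 F T T₁ (T₁ + H) r (d * s) : ℝ) := by
  have hpi := Real.pi_pos
  have hlog : 0 < Real.log T := Real.log_pos hT
  set m : ℕ := cornersTheoremBound (r * p / 4 / 3) + 1 with hm
  have hm1 : (1 : ℝ) ≤ m := by exact_mod_cast (show 1 ≤ m by omega)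
  set σ : ℝ := 2 * Real.pi / Real.log T with hσ
  have hσ0 : 0 < σ := by positivity
  have hS' : ∀ x ∈ S, T₁ ≤ x ∧ x ≤ T₁ + H := fun x hx =>
    ⟨(ord_bd (hS x hx)).1.le, (ord_bd (hS x hx)).2⟩
  obtain ⟨d, hd1, hd2, hd3⟩ := Pool.Agent.TH300.ZS.roth_fin3 (S := S) (A := T₁) (H := H) (r := r)
    (p := p) (δ := r * p / 4) (κ := 1 / 2) (σ := σ) (s := s * σ) hσ0 hH hr (by positivity) hS' hU
    (by linarith) (by linarith) (by omega : 1 ≤ m) (by omega)
    (by positivity) (by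
      have h3 : s * σ ≤ 1 / (4 * Real.pi * m) * (H * Real.log T) * σ :=
        mul_le_mul_of_nonneg_right hsT hσ0.le
      have e : (m : ℝ) * (1 / (4 * Real.pi * m) * (H * Real.log T) * σ) = 1 / 2 * H := by
        rw [hσ]; field_simp; norm_num
      calc (m : ℝ) * (s * σ) ≤ m * (1 / (4 * Real.pi * m) * (H * Real.log T) * σ) :=
            mul_le_mul_of_nonneg_left h3 (by linarith)
        _ = 1 / 2 * H := e)
  refine ⟨d, hd1, hd2.le, ?_⟩
  have e1 : (H / σ) = H / (2 * Real.pi) * Real.log T := by rw [hσ]; field_simp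
  rw [e1] at hd3
  refine hd3.trans ?_
  have h4 := A3_ge hfin hT r (d * s) hS
  rw [← hσ, mul_assoc] at h4
  exact_mod_cast h4

/-- The progressions for zeta in the whole range. -/
lemma zeta_full (r : ℝ) (hr : 0 < r) : ∃ D : ℕ, ∃ c₀ : ℝ, 0 < c₀ ∧ ∃ κ : ℝ, 0 < κ ∧
    ∃ T₀ : ℝ, ∀ T : ℝ, T₀ ≤ T → ∀ s : ℝ, 0 ≤ s → s ≤ κ * (T * Real.log T) →
      ∃ d : ℕ, 1 ≤ d ∧ d ≤ D ∧ c₀ * (T / (2 * Real.pi) * Real.log T) ≤
        (A3 riemannZeta T 0 T r (d * s) : ℝ) := by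
  have hpi := Real.pi_pos
  have hcn := H370.Expl.cMTinv_num
  set r' : ℝ := min r (9 / 10) with hr'
  have hr'0 : 0 < r' := lt_min hr (by norm_num)
  have hr'1 : r' ≤ 9 / 10 := min_le_right _ _
  obtain ⟨T₀, hT₀, h⟩ := zeta_data (3 / 10) (by norm_num) (by norm_num)
  refine ⟨cornersTheoremBound (r' * (1 / 2) / 4 / 3) + 1, (r' * (1 / 2) / 4) /
    (r' * ((cornersTheoremBound (r' * (1 / 2) / 4 / 3) + 1 : ℕ) : ℝ) ^ 2), by positivity,
    1 / (4 * Real.pi * ((cornersTheoremBound (r' * (1 / 2) / 4 / 3) + 1 : ℕ) : ℝ)), by positivity,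
    T₀, fun T hT s hs hsT => ?_⟩
  · obtain ⟨h1, h2, S, hS, hU⟩ := h T hT
    have hT10 : 10 ≤ T := hT₀.trans hT
    have hscale := scale_le hr'0 hr'1 h2
    obtain ⟨d, hd1, hd2, hd3⟩ := core (F := riemannZeta) (T₁ := 0) (T := T) (H := T) (p := 1 / 2)
      (r := r') (s := s) (by rw [zero_add]; exact zeros_finite_zeta T) (by linarith) (by linarith)
      hr'0 (by norm_num) S (by rw [zero_add]; exact hS) (by
        refine le_trans ?_ (hU r' hr'0 hr'1)
        rw [cMT_inv]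
        norm_num at hcn
        have : 0 < r' * T := by positivity
        nlinarith) (by
        rw [div_le_iff₀ (by linarith)]; linarith) hs hsT
    rw [zero_add] at hd3
    refine ⟨d, hd1, hd2, hd3.trans ?_⟩
    exact_mod_cast A3_mono (zeros_finite_zeta T) T (min_le_left _ _) _

/-- The progressions in short intervals. -/
lemma short {q : ℕ} [NeZero q] (χ : DirichletCharacter ℂ q) (hχ : χ.IsPrimitive)
    (h : ℝ) (hh : 0 < h) (hh1 : h ≤ 1) (hc : c h < 2) (r : ℝ) (hr : 0 < r) :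
    ∃ D : ℕ, ∃ c₀ : ℝ, 0 < c₀ ∧ ∃ κ : ℝ, 0 < κ ∧ ∃ T₀ : ℝ, ∀ T : ℝ, T₀ ≤ T → ∀ H : ℝ,
      T ^ h ≤ H → H ≤ T → ∀ s : ℝ, 0 ≤ s → s ≤ κ * (H * Real.log T) →
      ∃ d : ℕ, 1 ≤ d ∧ d ≤ D ∧ c₀ * (H / (2 * Real.pi) * Real.log T) ≤
        (A3 (DirichletCharacter.LFunction χ) T T (T + H) r (d * s) : ℝ) := by
  have hpi := Real.pi_pos
  set r' : ℝ := min r (9 / 10) with hr'
  have hr'0 : 0 < r' := lt_min hr (by norm_num)
  have hr'1 : r' ≤ 9 / 10 := min_le_right _ _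
  have hp0 : 0 < (2 - c h) / 2 := by linarith
  obtain ⟨T₁, hT₁, h1⟩ := Pool.Agent.TH300.ZS.nbhd_asym (H370.good_dirichlet χ hχ) hh hh1 hp0
  rw [← c_eq hh] at h1
  have htop : Tendsto (fun T : ℝ => T ^ h) atTop atTop := tendsto_rpow_atTop hh
  obtain ⟨T₂, hT₂⟩ := (htop.eventually_ge_atTop 3).exists_forall_of_atTop
  obtain ⟨T₃, hT₃⟩ := (Real.tendsto_log_atTop.eventually_ge_atTop
    (2 * Real.pi)).exists_forall_of_atTop
  refine ⟨cornersTheoremBound (r' * ((2 - c h) / 2) / 4 / 3) + 1, (r' * ((2 - c h) / 2) / 4) /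
    (r' * ((cornersTheoremBound (r' * ((2 - c h) / 2) / 4 / 3) + 1 : ℕ) : ℝ) ^ 2), by positivity,
    1 / (4 * Real.pi * ((cornersTheoremBound (r' * ((2 - c h) / 2) / 4 / 3) + 1 : ℕ) : ℝ)),
    by positivity, max (max T₁ T₂) (max T₃ 10), fun T hTT H hH hHT s hs hsT => ?_⟩
  · have hTT1 : T₁ ≤ T := ((le_max_left _ _).trans (le_max_left _ _)).trans hTT
    have hTT2 := hT₂ T (((le_max_right _ _).trans (le_max_left _ _)).trans hTT)
    have hTT3 := hT₃ T (((le_max_left _ _).trans (le_max_right _ _)).trans hTT)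
    have hT10 : 10 ≤ T := ((le_max_right _ _).trans (le_max_right _ _)).trans hTT
    have hHpos : 0 < H := by linarith
    obtain ⟨S, hS, hSU⟩ := h1 T hTT1 H hH hHT
    have hSo : ∀ x ∈ S, IsSimpleOrd (DirichletCharacter.LFunction χ) T (T + H) x := by
      intro x hx
      obtain ⟨a1, a2, a3, a4⟩ := hS x hx
      rw [mul_comm] at a3 a4
      exact ⟨by rw [zeros_eq]; exact a3, a4⟩
    have hscale := scale_le hr'0 hr'1 hTT3
    have hfin := zeros_finite χ hχ T (T + H) (by linarith)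
    obtain ⟨d, hd1, hd2, hd3⟩ := core (F := DirichletCharacter.LFunction χ) (T₁ := T) (T := T)
      (H := H) (p := (2 - c h) / 2) (r := r') (s := s) hfin (by linarith) hHpos
      hr'0 hp0 S hSo (by
        refine le_trans (le_of_eq ?_) (hSU r' hr'0 (by nlinarith))
        ring) (by
        rw [div_le_iff₀ hHpos]; linarith) hs hsT
    refine ⟨d, hd1, hd2, hd3.trans ?_⟩
    exact_mod_cast A3_mono hfin T (min_le_left _ _) _

/-- for `s ≥ r` the triples are counted by `N_3(T; B)` -/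
lemma A3_le {T r s : ℝ} (hr : 0 < r) (hrs : r ≤ s) : A3 riemannZeta T 0 T r s ≤
    Nk 2 T ![2 * s - r, s - r] ![2 * s + r, s + r] := by
  classical
  set Y : Set (ℝ × ℝ × ℝ) := {p : ℝ × ℝ × ℝ | (IsSimpleOrd riemannZeta 0 T p.1 ∧
      IsSimpleOrd riemannZeta 0 T p.2.1 ∧ IsSimpleOrd riemannZeta 0 T p.2.2) ∧
    |(p.1 - p.2.2) * Real.log T / (2 * Real.pi) - 2 * s| < r ∧
    |(p.2.1 - p.2.2) * Real.log T / (2 * Real.pi) - s| < r ∧
    |(p.1 - p.2.1) * Real.log T / (2 * Real.pi) - s| < r} with hY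
  set g : ℝ × ℝ × ℝ → (Fin 3 → ℝ) := fun p => ![p.1, p.2.1, p.2.2] with hg
  have hginj : Function.Injective g := by
    intro p q hpq
    have h3 := congrFun hpq 0
    have h4 := congrFun hpq 1
    have h5 := congrFun hpq 2
    simp only [hg, Matrix.cons_val_zero, Matrix.cons_val_one, Matrix.cons_val] at h3 h4 h5
    exact Prod.ext h3 (Prod.ext h4 h5)
  have hcard : A3 riemannZeta T 0 T r s = (g '' Y).ncard := by
    rw [Set.ncard_image_of_injective _ hginj]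
    rfl
  rw [hcard]
  apply Nk_ge
  rintro _ ⟨p, ⟨⟨q1, q2, q3⟩, u1, u2, u3⟩, rfl⟩
  rw [mul_div_assoc, abs_lt] at u1 u2 u3
  have v1 : p.1 ≠ p.2.2 := by
    intro h
    rw [h, sub_self, zero_mul] at u1
    linarith [u1.1]
  have v2 : p.2.1 ≠ p.2.2 := by
    intro h
    rw [h, sub_self, zero_mul] at u2
    linarith [u2.1]
  have v3 : p.1 ≠ p.2.1 := by
    intro h
    rw [h, sub_self, zero_mul] at u3
    linarith [u3.1]
  refine ⟨?_, ?_, ?_⟩
  · intro i j hij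
    fin_cases i <;> fin_cases j
    · rfl
    · exact absurd hij v3
    · exact absurd hij v1
    · exact absurd hij.symm v3
    · rfl
    · exact absurd hij v2
    · exact absurd hij.symm v1
    · exact absurd hij.symm v2
    · rfl
  · intro i
    fin_cases i
    · exact q1
    · exact q2
    · exact q3
  · intro i
    fin_cases i
    · exact ⟨by
        show 2 * s - r ≤ (p.1 - p.2.2) * (Real.log T / (2 * Real.pi))
        linarith [u1.1], by
        show (p.1 - p.2.2) * (Real.log T / (2 * Real.pi)) ≤ 2 * s + r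
        linarith [u1.2]⟩
    · exact ⟨by
        show s - r ≤ (p.2.1 - p.2.2) * (Real.log T / (2 * Real.pi))
        linarith [u2.1], by
        show (p.2.1 - p.2.2) * (Real.log T / (2 * Real.pi)) ≤ s + r
        linarith [u2.2]⟩

/-- **Three zeros in approximate arithmetic progression.** -/
theorem result (r : ℝ) (hr : 0 < r) :
    -- zeta
    (∃ D : ℕ, ∃ c₀ : ℝ, 0 < c₀ ∧ ∃ κ : ℝ, 0 < κ ∧ ∃ T₀ : ℝ, ∀ T : ℝ, T₀ ≤ T → ∀ s : ℝ,
      r ≤ s → s ≤ κ * (T * Real.log T) → ∃ d : ℕ, 1 ≤ d ∧ d ≤ D ∧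
        c₀ * (T / (2 * Real.pi) * Real.log T) ≤
        (Nk 2 T ![2 * (d * s) - r, d * s - r] ![2 * (d * s) + r, d * s + r] : ℝ)) ∧
    -- the L-functions, in short intervals
    (∀ (q : ℕ) [NeZero q] (χ : DirichletCharacter ℂ q), χ.IsPrimitive →
      ∀ h : ℝ, 0 < h → h ≤ 1 → c h < 2 →
      ∃ D : ℕ, ∃ c₀ : ℝ, 0 < c₀ ∧ ∃ κ : ℝ, 0 < κ ∧ ∃ T₀ : ℝ, ∀ T : ℝ, T₀ ≤ T → ∀ H : ℝ,
      T ^ h ≤ H → H ≤ T → ∀ s : ℝ, 0 ≤ s → s ≤ κ * (H * Real.log T) →
      ∃ d : ℕ, 1 ≤ d ∧ d ≤ D ∧ c₀ * (H / (2 * Real.pi) * Real.log T) ≤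
        (A3 (DirichletCharacter.LFunction χ) T T (T + H) r (d * s) : ℝ)) := by
  constructor
  · obtain ⟨D, c₀, hc₀, κ, hκ, T₀, h⟩ := zeta_full r hr
    refine ⟨D, c₀, hc₀, κ, hκ, T₀, fun T hT s hs hsT => ?_⟩
    obtain ⟨d, hd1, hd2, hd3⟩ := h T hT s (hr.le.trans hs) hsT
    refine ⟨d, hd1, hd2, hd3.trans ?_⟩
    have hd1' : (1 : ℝ) ≤ d := by exact_mod_cast hd1
    exact_mod_cast A3_le hr (show r ≤ d * s by nlinarith)
  · intro q _ χ hχ h hh hh1 hc
    exact short χ hχ h hh hh1 hc r hr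

end Pool.Agent.Results.MP_67227b_nt.ZeroProgressions
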